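import Pool.Agent.W_7d29a1_WP.DefsPP98
import Pool.Agent.W_7d29a1_PL.TrPL52
import Pool.Agent.W_7d29a1_VT.Fin53

/-!
The power laws in the letters of the problem: exponents and transfer.
-/

namespace Pool.Agent.W_7d29a1_WP

open MeasureTheory ProbabilityTheory Filter Topology Pool.Agent.W_MP_7d29a1_pr
  Pool.Agent.W_7d29a1_h46 Pool.Agent.W_7d29a1_h46u Pool.Agent.W_7d29a1_D2
  Pool.Agent.W_7d29a1_D2.B35 Pool.Agent.W_7d29a1_V Pool.Agent.W_7d29a1_VT
  Pool.Agent.W_7d29a1_Q29 Pool.Agent.W_7d29a1_SD Pool.Agent.W_7d29a1_PL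

variable {Ω : Type*} [MeasurableSpace Ω] {μ : Measure Ω} [IsProbabilityMeasure μ] {d : ℕ}
  {ρ : Measure ℝ} [IsProbabilityMeasure ρ] {ω : ℕ × Site d → Ω → ℝ} {β : ℝ}

/-- A power is not bounded. -/
lemma pow_fr52 {a C : ℝ} (ha : 0 < a) (H : ∃ᶠ n : ℕ in atTop, (n : ℝ) ^ a ≤ C) : False := by
  have h4 : Tendsto (fun n : ℕ => (n : ℝ) ^ a) atTop atTop :=
    (tendsto_rpow_atTop ha).comp tendsto_natCast_atTop_atTop
  obtain ⟨n, hn, hn'⟩ := (H.and_eventually (h4.eventually_gt_atTop C)).exists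
  linarith

/-- The variance is `≥ n ^ c` infinitely often: the exponent of all moments is at least `c / 2`. -/
theorem chi_fr52 (hd : 0 < d) (hω : IID μ ρ ω) (hρ : EM ρ) {h : Vec d} {c : ℝ} (hc : 0 < c)
    (H : ∃ᶠ n : ℕ in atTop, (n : ℝ) ^ c ≤ Va ρ β h n) : c / 2 ≤ chiF μ β ω h := by
  refine le_csInf ⟨1 / 2, half_mem_chiSetF hd hω hρ h⟩ fun x hx => ?_
  by_contra hcon
  have hxc : x < c / 2 := not_le.1 hcon
  obtain ⟨hx0, hF⟩ := (mem_chiSetF hd hω hρ h x).1 hx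
  obtain ⟨C, hC⟩ := hF 2
  refine pow_fr52 (a := c - 2 * x) (C := C) (by linarith) ?_
  refine (H.and_eventually (eventually_ge_atTop 1)).mono fun n hn => ?_
  obtain ⟨h1, hn1⟩ := hn
  have hn0 : (0 : ℝ) < n := by exact_mod_cast hn1
  have h2 := hC n hn1
  have h3 : Va ρ β h n ≤ C * (n : ℝ) ^ (x * ((2 : ℕ) : ℝ)) := by
    refine le_trans (le_of_eq ?_) h2
    unfold Va
    simp only [sq_abs]
  have h4 : (n : ℝ) ^ c = (n : ℝ) ^ (c - 2 * x) * (n : ℝ) ^ (x * ((2 : ℕ) : ℝ)) := by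
    rw [← Real.rpow_add hn0]
    congr 1
    push_cast
    ring
  rw [h4] at h1
  exact le_of_mul_le_mul_right (h1.trans h3) (Real.rpow_pos_of_pos hn0 _)

/-- The mass outside of a tube is at most one. -/
lemma tb_one52 (h v : Vec d) (n : ℕ) (r : ℝ) :
    ∫ η, (1 - PolT β h η (tube d n v r)) ∂(law d ρ) ≤ 1 := by
  have h2 := integral_mono_of_nonneg (μ := law d ρ)
    (f := fun η => 1 - PolT β h η (tube d n v r))
    (g := fun _ => (1 : ℝ))
    (Eventually.of_forall fun x => sub_nonneg.2 (PolT_le_one β h _ _))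
    (integrable_const (1 : ℝ))
    (Eventually.of_forall fun x => sub_le_self _ (PolT_nonneg β h _ _))
  refine h2.trans (le_of_eq ?_)
  simp

lemma tb_nonneg52 (h v : Vec d) (n : ℕ) (r : ℝ) :
    0 ≤ ∫ η, (1 - PolT β h η (tube d n v r)) ∂(law d ρ) :=
  integral_nonneg fun η => sub_nonneg.2 (PolT_le_one β h _ _)

lemma tb_int52 (h v : Vec d) (n : ℕ) (r : ℝ) :
    Integrable (fun η => 1 - PolT β h η (tube d n v r)) (law d ρ) := by
  refine Integrable.mono' (integrable_const (1 : ℝ))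
    ((measurable_PolT β h _).const_sub 1).aestronglyMeasurable
    (Eventually.of_forall fun η => ?_)
  rw [Real.norm_eq_abs, abs_of_nonneg (sub_nonneg.2 (PolT_le_one β h _ _))]
  exact sub_le_self _ (PolT_nonneg β h _ _)

/-- A larger tube. -/
lemma tb_mono52 (hd : 0 < d) (h v : Vec d) (n : ℕ) {r r' : ℝ} (hr : r ≤ r') :
    ∫ η, (1 - PolT β h η (tube d n v r')) ∂(law d ρ) ≤
      ∫ η, (1 - PolT β h η (tube d n v r)) ∂(law d ρ) := by
  refine integral_mono (tb_int52 h v n r') (tb_int52 h v n r) fun η => ?_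
  refine sub_le_sub_left ?_ 1
  have hpos := ZT_univ_pos (n := n) hd β h η
  unfold PolT
  refine div_le_div_of_nonneg_right ?_ hpos.le
  unfold ZT
  refine Finset.sum_le_sum fun s _ => ?_
  by_cases hs : s ∈ tube d n v r
  · rw [if_pos hs, if_pos (tube_mono v hr hs)]
  · rw [if_neg hs]
    split_ifs
    · exact (wgt_pos β h η s).le
    · exact le_rfl

/-- Infinitely often a weak fourth moment `> n ^ (2 + c)`: the strong wandering exponent is at
least `1 / 2 + c / 4`. -/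
theorem nuS_fr52 (hd : 0 < d) (hω : IID μ ρ ω) {h v : Vec d} {c : ℝ} (hc : 0 < c)
    (H : ∃ᶠ n : ℕ in atTop, ∃ r : ℝ, 0 < r ∧ (n : ℝ) ^ (2 + c) <
      r ^ 4 * ∫ η, (1 - PolT β h η (tube d n v r)) ∂(law d ρ)) :
    1 / 2 + c / 4 ≤ nuS μ β ω h v := by
  refine le_csInf ⟨2, StrB_two_mem hd ω β h v⟩ fun a ha => ?_
  by_contra hcon
  have hac : 4 * a < 2 + c := by
    have := not_le.1 hcon
    linarith
  obtain ⟨ha0, hq⟩ := (mem_nuSetS hω h v a).1 ha
  obtain ⟨C, hC⟩ := hq 3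
  set K : ℝ := (1 + ‖v‖) ^ 4 * C with hK
  have hv : 0 ≤ ‖v‖ := norm_nonneg v
  refine pow_fr52 (a := 1 + c) (C := K) (by linarith) ?_
  refine (H.and_eventually (eventually_ge_atTop 2)).mono fun n hn => ?_
  obtain ⟨⟨r, hr, h1⟩, hn2⟩ := hn
  have hn1 : 1 ≤ n := by omega
  have hn0 : (0 : ℝ) < n := by exact_mod_cast hn1
  have hn1' : (1 : ℝ) < n := by exact_mod_cast (show 1 < n by omega)
  set T := ∫ η, (1 - PolT β h η (tube d n v r)) ∂(law d ρ) with hT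
  have hT0 : 0 ≤ T := tb_nonneg52 h v n r
  have hT1 : T ≤ 1 := tb_one52 h v n r
  -- the radius is larger than `n ^ a`
  have hra : (n : ℝ) ^ a < r := by
    by_contra hcon2
    have h3 : r ≤ (n : ℝ) ^ a := not_lt.1 hcon2
    have h4 : r ^ 4 * T ≤ ((n : ℝ) ^ a) ^ 4 :=
      (mul_le_of_le_one_right (by positivity) hT1).trans (pow_le_pow_left₀ hr.le h3 4)
    have h5 : ((n : ℝ) ^ a) ^ 4 = (n : ℝ) ^ (4 * a) := by
      rw [← Real.rpow_natCast, ← Real.rpow_mul hn0.le]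
      congr 1
      push_cast
      ring
    have h6 : (n : ℝ) ^ (4 * a) < (n : ℝ) ^ (2 + c) := Real.rpow_lt_rpow_of_exponent_lt hn1' hac
    linarith
  -- the radius is at most `(1 + ‖v‖) n`
  have hrn : r < (n : ℝ) * (1 + ‖v‖) := by
    by_contra hcon2
    have h3 := tube_univ (n := n) v (not_lt.1 hcon2)
    have h4 : T = 0 := by
      rw [hT, h3]
      simp only [PolT_univ hd, sub_self, integral_zero]
    rw [h4, mul_zero] at h1
    exact absurd h1 (not_lt.2 (Real.rpow_nonneg hn0.le _))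
  have hTC : T ≤ C * (n : ℝ) ^ (-((3 : ℕ) : ℝ)) := (tb_mono52 hd h v n hra.le).trans (hC n hn1)
  have h7 : (n : ℝ) ^ (-((3 : ℕ) : ℝ)) = ((n : ℝ) ^ 3)⁻¹ := by
    rw [Real.rpow_neg hn0.le, Real.rpow_natCast]
  rw [h7] at hTC
  have h8 : r ^ 4 * T ≤ ((n : ℝ) * (1 + ‖v‖)) ^ 4 * (C * ((n : ℝ) ^ 3)⁻¹) :=
    mul_le_mul (pow_le_pow_left₀ hr.le hrn.le 4) hTC hT0 (by positivity)
  have h9 : ((n : ℝ) * (1 + ‖v‖)) ^ 4 * (C * ((n : ℝ) ^ 3)⁻¹) = K * n := by
    rw [hK]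
    field_simp
  have h10 : (n : ℝ) ^ (2 + c) = (n : ℝ) ^ (1 + c) * n := by
    rw [show (2 : ℝ) + c = (1 + c) + 1 by ring, Real.rpow_add hn0, Real.rpow_one]
  rw [h9] at h8
  rw [h10] at h1
  exact le_of_mul_le_mul_right (h1.le.trans h8) hn0

/-- The same from the weak first moment. -/
theorem nuR_fr52 (hd : 0 < d) (hω : IID μ ρ ω) {h v : Vec d} {c : ℝ} (hc : 0 < c)
    (H : ∃ᶠ n : ℕ in atTop, ∃ R : ℝ, 1 ≤ R ∧ (n : ℝ) ^ c < R * Tb ρ β h v R n) :
    1 / 2 + c ≤ nuS μ β ω h v := by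
  have h1 : 1 / 2 + (4 * c) / 4 ≤ nuS μ β ω h v := by
    refine nuS_fr52 hd hω (by linarith : (0 : ℝ) < 4 * c) ?_
    refine (H.and_eventually (eventually_ge_atTop 1)).mono fun n hn => ?_
    obtain ⟨⟨R, hR, h1⟩, hn1⟩ := hn
    have hn0 : (0 : ℝ) < n := by exact_mod_cast hn1
    have hs0 : 0 < Real.sqrt n := Real.sqrt_pos.2 hn0
    refine ⟨R * Real.sqrt n, by positivity, ?_⟩
    have hT0 : 0 ≤ Tb ρ β h v R n := tb_nonneg52 h v n _
    have hT1 : Tb ρ β h v R n ≤ 1 := tb_one52 h v n _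
    have h2 : ((n : ℝ) ^ c) ^ 4 < (R * Tb ρ β h v R n) ^ 4 :=
      pow_lt_pow_left₀ h1 (Real.rpow_nonneg hn0.le _) (by norm_num)
    have h3 : (R * Tb ρ β h v R n) ^ 4 ≤ R ^ 4 * Tb ρ β h v R n := by
      rw [mul_pow]
      refine mul_le_mul_of_nonneg_left ?_ (by positivity)
      exact pow_le_of_le_one hT0 hT1 (by norm_num)
    have h4 : ((n : ℝ) ^ c) ^ 4 = (n : ℝ) ^ (4 * c) := by
      rw [← Real.rpow_natCast, ← Real.rpow_mul hn0.le]
      congr 1
      push_cast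
      ring
    have h5 : (R * Real.sqrt n) ^ 4 = R ^ 4 * (n : ℝ) ^ 2 := by
      rw [mul_pow, show Real.sqrt n ^ 4 = (Real.sqrt n ^ 2) ^ 2 by ring, Real.sq_sqrt hn0.le]
    have h6 : (n : ℝ) ^ (2 + 4 * c) = (n : ℝ) ^ 2 * (n : ℝ) ^ (4 * c) := by
      rw [Real.rpow_add hn0]
      norm_num
    show (n : ℝ) ^ (2 + 4 * c) < (R * Real.sqrt n) ^ 4 * Tb ρ β h v R n
    rw [h6, h5]
    rw [h4] at h2
    have h7 : (n : ℝ) ^ (4 * c) < R ^ 4 * Tb ρ β h v R n := h2.trans_le h3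
    calc (n : ℝ) ^ 2 * (n : ℝ) ^ (4 * c) < (n : ℝ) ^ 2 * (R ^ 4 * Tb ρ β h v R n) :=
          mul_lt_mul_of_pos_left h7 (by positivity)
      _ = R ^ 4 * (n : ℝ) ^ 2 * Tb ρ β h v R n := by ring
  linarith

/-- The problem's own wandering exponent: infinitely often the polymer leaves the tube of radius
`n ^ b` with a probability bounded below. -/
theorem nuT_fr52 (hd : 0 < d) (hω : IID μ ρ ω) {h v : Vec d} {b ε : ℝ} (hε : 0 < ε)
    (H : ∃ᶠ n : ℕ in atTop,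
      ε ≤ ∫ η, (1 - PolT β h η (tube d n v ((n : ℝ) ^ b))) ∂(law d ρ)) :
    b ≤ nuT μ β ω h v := by
  by_contra hcon
  set κ : ℝ := min (1 / 2) (ε / 3) with hκd
  have hκ : 0 < κ := lt_min (by norm_num) (by linarith)
  have hκε : κ ≤ ε / 3 := min_le_right _ _
  obtain ⟨n₀, hn₀⟩ := exists_n0T hd hω.meas (β := β) (h := h) (v := v) (not_le.1 hcon) hκ
  obtain ⟨n, hn, hnn⟩ := (H.and_eventually (eventually_ge_atTop n₀)).exists
  have hSm : MeasurableSet {η : Env d | ¬ (1 - κ ≤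
      PolT β h η (tube d n v ((n : ℝ) ^ b)))} :=
    (measurableSet_le measurable_const (measurable_PolT β h _)).compl
  have hP : (law d ρ).real {η | ¬ (1 - κ ≤ PolT β h η (tube d n v ((n : ℝ) ^ b)))} ≤ κ := by
    rw [← (mp_env hω).measureReal_preimage hSm.nullMeasurableSet]
    exact hn₀ n hnn
  have h1 : ∫ η, (1 - PolT β h η (tube d n v ((n : ℝ) ^ b))) ∂(law d ρ) ≤
      ∫ η, (κ + {η : Env d | ¬ (1 - κ ≤
        PolT β h η (tube d n v ((n : ℝ) ^ b)))}.indicator (fun _ => (1 : ℝ)) η) ∂(law d ρ) := by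
    refine integral_mono (tb_int52 h v n _)
      ((integrable_const κ).add ((integrable_const (1 : ℝ)).indicator hSm)) fun η => ?_
    by_cases hη : 1 - κ ≤ PolT β h η (tube d n v ((n : ℝ) ^ b))
    · rw [Set.indicator_of_notMem (by simpa using hη)]
      linarith
    · rw [Set.indicator_of_mem (by simpa using hη)]
      have := PolT_nonneg β h η (tube d n v ((n : ℝ) ^ b))
      linarith
  rw [integral_add (integrable_const κ) ((integrable_const (1 : ℝ)).indicator hSm),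
    integral_indicator_const _ hSm] at h1
  simp only [integral_const, probReal_univ, smul_eq_mul, one_mul, mul_one] at h1
  linarith

end Pool.Agent.W_7d29a1_WP
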