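import Pool.Agent.W_7d29a1_WP.PlugW98
import Pool.Agent.W_7d29a1_PL.CorX24
import Pool.Agent.W_7d29a1_PL.Use10
import Pool.Agent.W_7d29a1_PL.AddX54
import Pool.Agent.W_7d29a1_PL.Cat76
import Pool.Agent.W_7d29a1_PL.ChpX34
import Pool.Agent.W_7d29a1_PL.Sel66
import Pool.Agent.W_7d29a1_PL.CostX7
import Pool.Agent.W_7d29a1_AM.AmpNU5

/-!
The core of the power law, the point theorem and Theorem W0 with a power, for every law which is not
a point mass and has all exponential moments.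
-/

namespace Pool.Agent.W_7d29a1_WP

open MeasureTheory ProbabilityTheory Filter Topology Pool.Agent.W_MP_7d29a1_pr
  Pool.Agent.W_7d29a1_h46 Pool.Agent.W_7d29a1_h46u Pool.Agent.W_7d29a1_D2.B35
  Pool.Agent.W_7d29a1_Q29 Pool.Agent.W_7d29a1_R34 Pool.Agent.W_7d29a1_SP Pool.Agent.W_7d29a1_SD
  Pool.Agent.W_7d29a1_SW Pool.Agent.W_7d29a1_AM Pool.Agent.W_7d29a1_PL

variable {ρ : Measure ℝ} [IsProbabilityMeasure ρ]

/-- Growth without a moment, every law. -/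
theorem growN98 {d : ℕ} (hd : 0 < d) (hρ : EM ρ) (hnc : ∀ c : ℝ, ρ {c} ≠ 1) {β : ℝ}
    (hβ : 0 < β) : W_7d29a1_PL.GrowN d ρ β := by
  have hG : W_7d29a1_AM.GrowN d ρ β := growN5 (cnt79 hd hρ β) (ampNAll5 hd hρ hnc hβ)
  intro c₀ D hc hD
  obtain ⟨C, hC, H⟩ := hG c₀ D hc hD
  refine ⟨C, hC, fun h hL m T s₀ s₁ q Φ hm hq hq1 hs hA h0 h1 hT hΦ => ?_⟩
  refine H h hL m T s₀ s₁ q Φ hm hq ?_ hs hA h0 h1 hT hΦ
  have hl : 0 ≤ Real.log (1 / q) := Real.log_nonneg (by rw [le_div_iff₀ hq]; linarith)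
  have hs0 : s₀ < s₁ := by nlinarith
  have hX : Measurable fun η : Env d => X β h η m := measurable_X β h m
  have hdis : Disjoint {η : Env d | X β h η m ≤ s₀} {η : Env d | s₁ < X β h η m} := by
    rw [Set.disjoint_left]
    intro η h2 h3
    have h4 : X β h η m ≤ s₀ := h2
    have h5 : s₁ < X β h η m := h3
    linarith
  have h2 := measureReal_union (μ := law d ρ) hdis (measurableSet_lt measurable_const hX)
  have h3 : (law d ρ).real ({η : Env d | X β h η m ≤ s₀} ∪ {η : Env d | s₁ < X β h η m}) ≤ 1 :=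
    measureReal_le_one
  linarith

/-- **The core of the power law**, every dimension, every law. -/
theorem corAll98 {d : ℕ} (hd : 0 < d) (hρ : EM ρ) (hnc : ∀ c : ℝ, ρ {c} ≠ 1) {β : ℝ}
    (hβ : 0 < β) : CorP d ρ β := by
  have hG : W_7d29a1_PL.GrowN d ρ β := growN98 hd hρ hnc hβ
  exact C24.corX24 hd hρ (Csy42.loc42 hd hρ β) (useP10 hd hρ β)
    (Ad54.addX54 hd (cat76 hd hρ β) (costXN7 hd hρ hG)) (chpX34 hd hρ hG) sel66

/-- There is no good point with a power bound, every law. -/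
theorem pointAll98 (hρ : EM ρ) (hnc : ∀ c : ℝ, ρ {c} ≠ 1) {β : ℝ} (hβ : 0 < β) :
    PointPL ρ β :=
  pointC98 hρ hnc hβ (corAll98 (by norm_num) hρ hnc hβ)

/-- **THEOREM W0 with a power**, every law. -/
theorem mainAll98 (hρ : EM ρ) (hnc : ∀ c : ℝ, ρ {c} ≠ 1) {β : ℝ} (hβ : 0 < β) :
    MainW0P ρ β :=
  mainC98 hρ hnc hβ (corAll98 (by norm_num) hρ hnc hβ)

end Pool.Agent.W_7d29a1_WP
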