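import Pool.Agent.W_7d29a1_WP.DefsWP
import Pool.Agent.W_7d29a1_SW.MainW80

/-!
Theorem WP (theorem W with a power), leaf C6 (helper80): the theorem from its leaves.
-/

set_option autoImplicit false

namespace Pool.Agent.W_7d29a1_WP

open MeasureTheory ProbabilityTheory Filter Topology Pool.Agent.W_MP_7d29a1_pr
  Pool.Agent.W_7d29a1_h46 Pool.Agent.W_7d29a1_h46u Pool.Agent.W_7d29a1_D2.B35
  Pool.Agent.W_7d29a1_Q29 Pool.Agent.W_7d29a1_R34 Pool.Agent.W_7d29a1_SP Pool.Agent.W_7d29a1_SD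
  Pool.Agent.W_7d29a1_SW

lemma pg_mono80 {Q Q' c c' : ℝ} (hQ : 0 ≤ Q) (hQQ : Q ≤ Q') (hcc : c ≤ c') (t : ℕ) :
    pg Q c t ≤ pg Q' c' t := by
  unfold pg
  have h1 : (1 : ℝ) ≤ (t : ℝ) + 1 := by
    have : (0 : ℝ) ≤ t := Nat.cast_nonneg t
    linarith
  exact mul_le_mul hQQ (Real.rpow_le_rpow_of_exponent_le h1 hcc) (by positivity) (hQ.trans hQQ)

/-- The logarithm is absorbed. -/
lemma numP80 {C c : ℝ} (hC : 0 ≤ C) (hc : 0 < c) (n : ℕ) :
    C * pg 1 c n * (1 + Real.log n) ≤ pg (C * (1 + 1 / c)) (2 * c) n := by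
  have hn0 : (0 : ℝ) ≤ n := Nat.cast_nonneg n
  obtain ⟨x, hx⟩ : ∃ x : ℝ, x = (n : ℝ) + 1 := ⟨_, rfl⟩
  have hx1 : 1 ≤ x := by linarith
  have hx0 : 0 < x := by linarith
  have h1 : 1 ≤ x ^ c := Real.one_le_rpow hx1 hc.le
  have h2 : Real.log x ≤ x ^ c / c := Real.log_le_rpow_div hx0.le hc
  have h3 : Real.log n ≤ Real.log x := by
    rcases Nat.eq_zero_or_pos n with h0 | h0
    · rw [h0, Nat.cast_zero, Real.log_zero]
      exact Real.log_nonneg hx1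
    · exact Real.log_le_log (by exact_mod_cast h0) (by linarith)
  have h4 : 1 + Real.log n ≤ (1 + 1 / c) * x ^ c := by
    have e : (1 + 1 / c) * x ^ c = x ^ c + x ^ c / c := by ring
    rw [e]
    linarith
  unfold pg
  rw [← hx]
  have e1 : x ^ (2 * c) = x ^ c * x ^ c := by
    rw [← Real.rpow_add hx0]
    congr 1
    ring
  rw [e1]
  calc C * (1 * x ^ c) * (1 + Real.log n) ≤ C * (1 * x ^ c) * ((1 + 1 / c) * x ^ c) :=
        mul_le_mul_of_nonneg_left h4 (by positivity)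
    _ = _ := by ring

/-- The velocities with a tilt and with the bound of the constant `1 / (i + 1)` from the time
`N`. -/
def DP80 (ρ : Measure ℝ) (β : ℝ) (i N : ℕ) : Set (Vec 2) :=
  {v | ∃ h : Vec 2, HWK ρ β h v (pg 1 (1 / ((i : ℝ) + 1))) N}

variable {ρ : Measure ℝ} [IsProbabilityMeasure ρ] {β : ℝ}

/-- **Leaf C6.** -/
theorem mainWP80 (hρ : EM ρ) (hSl : SlK 2 ρ β) (hRs : RsK 2 ρ β) (hBk : BkK 2 ρ β)
    (hRt : RtK 2 ρ β) (hLc : LcK 2 ρ β) (hP : PbPK ρ β) (hPt : PointPL ρ β) : MainWP ρ β := by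
  classical
  have hd : 0 < 2 := by norm_num
  have hann : ∀ᵐ v : Vec 2, ∀ i N : ℕ, v ∈ DP80 ρ β i N → Sel70.Ann (DP80 ρ β i N) v :=
    ae_all_iff.2 fun i => ae_all_iff.2 fun N => Sel70.ae_ann hd (DP80 ρ β i N)
  filter_upwards [hann, Sel70.ae_lip (lam_convex hd hρ β)] with v hv1 hv2 h hV
  -- the gap
  obtain ⟨g, hg⟩ : ∃ g : ℝ, g = Real.log (Phi h) + Real.log (∫ t, Real.exp (β * t) ∂ρ) -
    lam ρ β h := ⟨_, rfl⟩
  have hg0 : 0 < g := by
    unfold VSD at hV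
    linarith
  obtain ⟨θ, C, c₁, hθ0, hθ1, hC1, hc₁, hPb⟩ := hP g hg0
  obtain ⟨ε, hε0, hε1, hno⟩ := hPt g hg0
  have hC0 : 0 < C := by linarith
  -- the constant
  obtain ⟨i, hi⟩ : ∃ i : ℕ, 1 / ((i : ℝ) + 1) < min (1 / 10) (min (c₁ / 2) (ε / (2 * C))) :=
    exists_nat_one_div_lt (by positivity)
  obtain ⟨c, hc⟩ : ∃ c : ℝ, c = 1 / ((i : ℝ) + 1) := ⟨_, rfl⟩
  have hc0 : 0 < c := by
    rw [hc]
    positivity
  rw [← hc] at hi
  have hi1 : c < 1 / 10 := hi.trans_le (min_le_left _ _)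
  have hi2 : c < c₁ / 2 := hi.trans_le ((min_le_right _ _).trans (min_le_left _ _))
  have hi3 : c < ε / (2 * C) := hi.trans_le ((min_le_right _ _).trans (min_le_right _ _))
  have hcC : C * (2 * c) ≤ ε := by
    rw [lt_div_iff₀ (by positivity)] at hi3
    linarith
  refine ⟨c, hc0, ?_⟩
  by_contra hneg
  rw [not_frequently] at hneg
  obtain ⟨N₀, hN₀⟩ := eventually_atTop.1 hneg
  obtain ⟨N, hN⟩ : ∃ N : ℕ, N = max N₀ 1 := ⟨_, rfl⟩
  have hHW : HWK ρ β h v (pg 1 c) N := by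
    intro n hn r hr
    have hn1 : 1 ≤ n := (le_max_right N₀ 1).trans (hN ▸ hn)
    have hn2 : N₀ ≤ n := (le_max_left N₀ 1).trans (hN ▸ hn)
    have hn' : (0 : ℝ) < n := by exact_mod_cast hn1
    have h1 : r ^ 4 * ∫ η, (1 - PolT β h η (tube 2 n v r)) ∂(law 2 ρ) ≤ (n : ℝ) ^ (2 + c) := by
      by_contra hlt
      exact hN₀ n hn2 ⟨r, hr, not_le.1 hlt⟩
    refine h1.trans ?_
    rw [Real.rpow_add hn', Real.rpow_two]
    unfold pg
    rw [one_mul]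
    exact mul_le_mul_of_nonneg_left (Real.rpow_le_rpow hn'.le (by linarith) hc0.le)
      (by positivity)
  have hsl := hSl h v c N hi1.le hHW
  have hvD : v ∈ DP80 ρ β i N := by
    refine ⟨h, ?_⟩
    rw [← hc]
    exact hHW
  obtain ⟨r₀, hr₀, hA⟩ := hv1 i N hvD
  obtain ⟨K, δ, hK, hδ, hLip⟩ := hv2 h hsl
  -- the resampling bound and the bulk variance
  obtain ⟨C₁, κ, n₁, hC₁, hκ, hRS⟩ := hRs h v (pg 1 c) θ K (min r₀ δ) N hθ0 (by linarith) hK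
    (lt_min hr₀ hδ) hHW fun s hs0 hs1 => by
      obtain ⟨y, hy, hy1, hy2⟩ := hA s hs0 (hs1.trans (min_le_left _ _))
      obtain ⟨h', hh'⟩ := hy
      rw [← hc] at hh'
      exact ⟨y, h', hy1, hy2, hLip h' y (hSl h' y c N hi1.le hh')
        (hy2.trans (hs1.trans (min_le_right _ _))), hh'⟩
  obtain ⟨C₂, hC₂, hVb⟩ := hBk h c θ C₁ κ n₁ hc0 hi1.le hC₁ hκ hRS
  obtain ⟨R, hR⟩ := hRt h v c N hi1.le hHW
  obtain ⟨Q₀, hQ₀, hloc⟩ := hLc h v c N hc0 hi1.le hHW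
  -- the good point
  have hq0 : 0 ≤ C₂ * (1 + 1 / c) := by positivity
  obtain ⟨Q, hQ⟩ : ∃ Q : ℝ, Q = Q₀ + C₂ * (1 + 1 / c) := ⟨_, rfl⟩
  have hpb : PbK ρ β h v g θ (pg Q (2 * c)) R := by
    refine ⟨by linarith, fun n t ht => ?_, fun n => ?_, hR⟩
    · exact (loc_mono80 β h v ht (mul_le_mul_of_nonneg_right
        (pg_mono80 (by linarith) (by linarith) (by linarith) n) (Real.sqrt_nonneg _))).trans
        (hloc n t ht)
    · exact ((hVb n).trans (numP80 hC₂ hc0 n)).trans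
        (pg_mono80 hq0 (by linarith) le_rfl n)
  obtain ⟨Q', hQ', hpw⟩ := hPb h v Q (2 * c) R (by linarith) (by linarith) (by linarith) hpb
  refine hno h v Q' R hQ' ⟨hpw.gap, fun n t ht => ?_, fun t => ?_, hpw.rate⟩
  · exact (loc_mono80 β h v ht (mul_le_mul_of_nonneg_right
      (pg_mono80 (by linarith) le_rfl hcC n) (Real.sqrt_nonneg _))).trans (hpw.loc n t ht)
  · exact (hpw.var t).trans (pg_mono80 (by linarith) le_rfl hcC t)

end Pool.Agent.W_7d29a1_WP
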