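import Pool.Agent.W_7d29a1_WP.ExpWP52

/-!
The power laws in the letters of the problem, `d = 2`: exponents and transfer.
-/

namespace Pool.Agent.W_7d29a1_WP

open MeasureTheory ProbabilityTheory Filter Topology Pool.Agent.W_MP_7d29a1_pr
  Pool.Agent.W_7d29a1_h46 Pool.Agent.W_7d29a1_h46u Pool.Agent.W_7d29a1_D2
  Pool.Agent.W_7d29a1_D2.B35 Pool.Agent.W_7d29a1_V Pool.Agent.W_7d29a1_VT
  Pool.Agent.W_7d29a1_Q29 Pool.Agent.W_7d29a1_NV Pool.Agent.W_7d29a1_SD Pool.Agent.W_7d29a1_PL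

variable {Ω : Type*} [MeasurableSpace Ω] {μ : Measure Ω} [IsProbabilityMeasure μ] {d : ℕ}
  {ρ : Measure ℝ} [IsProbabilityMeasure ρ] {ω : ℕ × Site d → Ω → ℝ} {β : ℝ}

/-- `χ* > 0` at almost every tilt. -/
theorem chiPL52 (hω : IID μ ρ ω) (hρ : EM ρ) (hnc : ∀ c : ℝ, ρ {c} ≠ 1) (hβ : 0 < β)
    (hd : d = 2) (hM : MainPL ρ β) : ∀ᵐ h : Vec d, 0 < chiF μ β ω h := by
  subst hd
  filter_upwards [hM] with h hh
  obtain ⟨c, hc, H⟩ := hh (W_7d29a1_L2.vsd2 hρ hnc hβ h)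
  have := chi_fr52 two_pos hω hρ hc H
  linarith

/-- `ν* > 1 / 2` at almost every velocity and every tilt. -/
theorem nuWP52 (hω : IID μ ρ ω) (hρ : EM ρ) (hnc : ∀ c : ℝ, ρ {c} ≠ 1) (hβ : 0 < β)
    (hd : d = 2) (hM : MainWP ρ β) : ∀ᵐ v : Vec d, ∀ h : Vec d, 1 / 2 < nuS μ β ω h v := by
  subst hd
  filter_upwards [hM] with v hv h
  obtain ⟨c, hc, H⟩ := hv h (W_7d29a1_L2.vsd2 hρ hnc hβ h)
  have := nuS_fr52 two_pos hω hc H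
  linarith

/-- The same from the weak first moment. -/
theorem nuRP52 (hω : IID μ ρ ω) (hρ : EM ρ) (hnc : ∀ c : ℝ, ρ {c} ≠ 1) (hβ : 0 < β)
    (hd : d = 2) (hM : ∀ᵐ v : Vec 2, ∀ h : Vec 2, VSD ρ β h → ∃ c : ℝ, 0 < c ∧
      ∃ᶠ n : ℕ in atTop, ∃ R : ℝ, 1 ≤ R ∧ (n : ℝ) ^ c < R * Tb ρ β h v R n) :
    ∀ᵐ v : Vec d, ∀ h : Vec d, 1 / 2 < nuS μ β ω h v := by
  subst hd
  filter_upwards [hM] with v hv h
  obtain ⟨c, hc, H⟩ := hv h (W_7d29a1_L2.vsd2 hρ hnc hβ h)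
  have := nuR_fr52 two_pos hω hc H
  linarith

/-- Every tilt and every direction: the variance is `≥ n ^ c` infinitely often, or the exponent
`ν(h, v)` of the problem is larger than `1 / 2`. -/
theorem nuW0P52 (hω : IID μ ρ ω) (hρ : EM ρ) (hnc : ∀ c : ℝ, ρ {c} ≠ 1) (hβ : 0 < β)
    (hd : d = 2) (hM : MainW0P ρ β) : ∀ h : Vec d, ∃ c : ℝ, 0 < c ∧ ∀ v : Vec d,
      (∃ᶠ n : ℕ in atTop, (n : ℝ) ^ c ≤ Va ρ β h n) ∨ 1 / 2 + c ≤ nuT μ β ω h v := by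
  subst hd
  intro h
  obtain ⟨c, hc, H⟩ := hM h (W_7d29a1_L2.vsd2 hρ hnc hβ h)
  refine ⟨c, hc, fun v => ?_⟩
  obtain ⟨ε, hε, H2⟩ := H v
  rcases frequently_or_distrib.1 H2 with H3 | H3
  · exact Or.inl H3
  · exact Or.inr (nuT_fr52 two_pos hω hε H3)

/-- The same with the exponent of all moments. -/
theorem expW0P52 (hω : IID μ ρ ω) (hρ : EM ρ) (hnc : ∀ c : ℝ, ρ {c} ≠ 1) (hβ : 0 < β)
    (hd : d = 2) (hM : MainW0P ρ β) : ∀ h v : Vec d,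
      0 < chiF μ β ω h ∨ 1 / 2 < nuT μ β ω h v := by
  intro h v
  have hd0 : 0 < d := by omega
  obtain ⟨c, hc, H⟩ := nuW0P52 hω hρ hnc hβ hd hM h
  rcases H v with H1 | H1
  · have := chi_fr52 hd0 hω hρ hc H1
    exact Or.inl (by linarith)
  · exact Or.inr (by linarith)

/-- The fourth moment of the maximal displacement. -/
theorem trWP52 (hω : IID μ ρ ω) (hρ : EM ρ) (hnc : ∀ c : ℝ, ρ {c} ≠ 1) (hβ : 0 < β)
    (hd : d = 2) (hM : MainWP ρ β) : ∀ᵐ v : Vec d, ∀ h : Vec d, ∃ c : ℝ, 0 < c ∧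
      ∃ᶠ n : ℕ in atTop, ∃ r : ℝ, 0 < r ∧
        (n : ℝ) ^ (2 + c) < r ^ 4 * Lit29.EP μ ω β h (tube d n v r)ᶜ := by
  subst hd
  filter_upwards [hM] with v hv h
  obtain ⟨c, hc, H⟩ := hv h (W_7d29a1_L2.vsd2 hρ hnc hβ h)
  refine ⟨c, hc, H.mono fun n hn => ?_⟩
  obtain ⟨r, hr, h1⟩ := hn
  refine ⟨r, hr, ?_⟩
  rw [ltub52 two_pos hω]
  exact h1

/-- Every tilt and every direction. -/
theorem trW0P52 (hω : IID μ ρ ω) (hρ : EM ρ) (hnc : ∀ c : ℝ, ρ {c} ≠ 1) (hβ : 0 < β)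
    (hd : d = 2) (hM : MainW0P ρ β) : ∀ h : Vec d, ∃ c : ℝ, 0 < c ∧ ∀ v : Vec d, ∃ ε : ℝ,
      0 < ε ∧ ∃ᶠ n : ℕ in atTop, (n : ℝ) ^ c ≤ Var[Lit29.X ω β h n; μ] ∨
        ε ≤ Lit29.EP μ ω β h (tube d n v ((n : ℝ) ^ (1 / 2 + c)))ᶜ := by
  subst hd
  intro h
  obtain ⟨c, hc, H⟩ := hM h (W_7d29a1_L2.vsd2 hρ hnc hβ h)
  refine ⟨c, hc, fun v => ?_⟩
  obtain ⟨ε, hε, H2⟩ := H v
  refine ⟨ε, hε, H2.mono fun n hn => ?_⟩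
  rw [lvar52 two_pos hω hρ, ltub52 two_pos hω]
  exact hn

end Pool.Agent.W_7d29a1_WP
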