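import Pool.Agent.W_7d29a1_SW.DefsW
import Pool.Agent.W_7d29a1_AM.DefsAM

/-!
Theorem W with a power: definitions and frozen statements of the leaves. Everything as in
`W_7d29a1_SW/DefsW.lean`, with a general bound `K : ℕ → ℝ` or `pg Q c n = Q (n + 1) ^ c` in place of
`kap Q c n = Q exp (c √(log n))`, and for every law.
-/

namespace Pool.Agent.W_7d29a1_WP

open MeasureTheory ProbabilityTheory Filter Topology Pool.Agent.W_MP_7d29a1_pr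
  Pool.Agent.W_7d29a1_h46 Pool.Agent.W_7d29a1_h46u Pool.Agent.W_7d29a1_D2.B35
  Pool.Agent.W_7d29a1_Q29 Pool.Agent.W_7d29a1_R34 Pool.Agent.W_7d29a1_SP Pool.Agent.W_7d29a1_SD
  Pool.Agent.W_7d29a1_SW Pool.Agent.W_7d29a1_AM

/-- The power gauge. -/
noncomputable def pg (Q c : ℝ) (n : ℕ) : ℝ := Q * ((n : ℝ) + 1) ^ c

/-- The hypothesis to be contradicted: `max ‖S_i - i v‖` has a weak fourth moment `≤ n ^ 2 G n`. -/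
def HWK {d : ℕ} (ρ : Measure ℝ) (β : ℝ) (h v : Vec d) (G : ℕ → ℝ) (n₀ : ℕ) : Prop :=
  ∀ n : ℕ, n₀ ≤ n → ∀ r : ℝ, 0 < r → r ^ 4 * ∫ η, (1 - PolT β h η (tube d n v r)) ∂(law d ρ) ≤
    (n : ℝ) ^ 2 * G n

/-- The data of a good point, total variance (`d = 2`). -/
structure PwK (ρ : Measure ℝ) (β : ℝ) (h v : Vec 2) (g : ℝ) (K : ℕ → ℝ) (R : ℝ) : Prop where
  gap : lam ρ β h + g ≤ Real.log (Phi h) + Real.log (∫ t, Real.exp (β * t) ∂ρ)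
  loc : ∀ n t : ℕ, t ≤ n →
    ∫ η, (1 - ∑ y ∈ bal v t (K n * Real.sqrt n), Qt β h n t y η) ∂(law 2 ρ) ≤ 1 / 8
  var : ∀ t : ℕ, Va ρ β h t ≤ K t
  rate : ∀ n : ℕ, En ρ β h n ≤ R * (n : ℝ) ^ (49 / 100 : ℝ)

/-- The data of a good point, bulk variance (`d = 2`). -/
structure PbK (ρ : Measure ℝ) (β : ℝ) (h v : Vec 2) (g θ : ℝ) (K : ℕ → ℝ) (R : ℝ) : Prop where
  gap : lam ρ β h + g ≤ Real.log (Phi h) + Real.log (∫ t, Real.exp (β * t) ∂ρ)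
  loc : ∀ n t : ℕ, t ≤ n →
    ∫ η, (1 - ∑ y ∈ bal v t (K n * Real.sqrt n), Qt β h n t y η) ∂(law 2 ρ) ≤ 1 / 8
  bulk : ∀ n : ℕ, Vb ρ β h n ⌊θ * n⌋₊ ≤ K n
  rate : ∀ n : ℕ, En ρ β h n ≤ R * (n : ℝ) ^ (49 / 100 : ℝ)

section All

variable (d : ℕ) (ρ : Measure ℝ) (β : ℝ)

/-- Leaf C1: the velocity is a slope. -/
def SlK : Prop := ∀ (h v : Vec d) (c : ℝ) (n₀ : ℕ), c ≤ 1 / 10 → HWK ρ β h v (pg 1 c) n₀ →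
  ∀ k : Vec d, lam ρ β h + inner ℝ v k ≤ lam ρ β (h + k)

/-- Leaf C2: the resampling bound at all levels. -/
def RsK : Prop := ∀ (h v : Vec d) (G : ℕ → ℝ) (θ C s₀ : ℝ) (n₀ : ℕ), 0 < θ → θ ≤ 1 / 2 →
  0 < C → 0 < s₀ → HWK ρ β h v G n₀ → (∀ s : ℝ, 0 < s → s ≤ s₀ → ∃ v' h' : Vec d,
    s / 2 ≤ ‖v' - v‖ ∧ ‖v' - v‖ ≤ s ∧ ‖h' - h‖ ≤ C * ‖v' - v‖ ∧ HWK ρ β h' v' G n₀) →
  ∃ C₁ κ : ℝ, ∃ n₁ : ℕ, 1 ≤ C₁ ∧ 0 < κ ∧ ∀ n : ℕ, n₁ ≤ n → ∀ R : ℝ, 1 ≤ R →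
    R ≤ κ * Real.sqrt n → RS ρ β h n ⌊θ * n⌋₊ (C₁ * R ^ 2) (10 * (G n / R ^ 4))

/-- Leaf C3: from the tails to the bulk variance. -/
def BkK : Prop := ∀ (h : Vec d) (c θ C₁ κ : ℝ) (n₁ : ℕ), 0 < c → c ≤ 1 / 10 → 1 ≤ C₁ → 0 < κ →
  (∀ n : ℕ, n₁ ≤ n → ∀ R : ℝ, 1 ≤ R → R ≤ κ * Real.sqrt n →
    RS ρ β h n ⌊θ * n⌋₊ (C₁ * R ^ 2) (10 * (pg 1 c n / R ^ 4))) →
  ∃ C : ℝ, 0 ≤ C ∧ ∀ n : ℕ, Vb ρ β h n ⌊θ * n⌋₊ ≤ C * pg 1 c n * (1 + Real.log n)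

/-- Leaf C4: the rate. -/
def RtK : Prop := ∀ (h v : Vec d) (c : ℝ) (n₀ : ℕ), c ≤ 1 / 10 → HWK ρ β h v (pg 1 c) n₀ →
  ∃ R : ℝ, ∀ n : ℕ, En ρ β h n ≤ R * (n : ℝ) ^ (49 / 100 : ℝ)

/-- Leaf C5: the window. -/
def LcK : Prop := ∀ (h v : Vec d) (c : ℝ) (n₀ : ℕ), 0 < c → c ≤ 1 / 10 →
  HWK ρ β h v (pg 1 c) n₀ → ∃ Q : ℝ, 1 ≤ Q ∧ ∀ n t : ℕ, t ≤ n →
    ∫ η, (1 - ∑ y ∈ bal v t (pg Q c n * Real.sqrt n), Qt β h n t y η) ∂(law d ρ) ≤ 1 / 8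

end All

section Two

variable (ρ : Measure ℝ) (β : ℝ)

/-- Leaf B2 (from `SeqP`, `AmpU`, `SaW`, `VaW`, `LkB`): the nonrandom fluctuation from the bulk
variance. -/
def BeK : Prop := ∀ c₀ θ : ℝ, 0 < c₀ → 0 < θ → θ ≤ c₀ / 4 → θ ≤ 1 / 4000 →
  ∃ C : ℝ, 1 ≤ C ∧ ∀ (h v : Vec 2) (g R : ℝ) (K : ℕ → ℝ), Loc1 ρ β h c₀ → Monotone K →
    (∀ n, 1 ≤ K n) → PbK ρ β h v g θ K R → ∀ n k : ℕ, k ≤ n → 1 ≤ En ρ β h k →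
      ∃ (N : ℕ) (e : ℝ), 1 ≤ N ∧ 0 < e ∧ En ρ β h k ≤ 2 * e ∧ (N : ℝ) ≤ 4 * n * e ^ 2 ∧
        e ≤ C * (1 + |R|) * K (4 * N) ^ C * (1 + Real.log N) ^ C

/-- Leaf B4 (from `BeK`, `NuK`, `VaW`, `LocE`): the variance at a good point. -/
def PbPK : Prop := ∀ g : ℝ, 0 < g → ∃ θ C c₁ : ℝ, 0 < θ ∧ θ ≤ 1 / 4000 ∧ 1 ≤ C ∧ 0 < c₁ ∧
  ∀ (h v : Vec 2) (Q c R : ℝ), 1 ≤ Q → 0 < c → c ≤ c₁ → PbK ρ β h v g θ (pg Q c) R →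
    ∃ Q' : ℝ, 1 ≤ Q' ∧ PwK ρ β h v g (pg Q' (C * c)) R

/-- The core (power law): there is no good point. -/
def PointPL : Prop := ∀ g : ℝ, 0 < g → ∃ ε : ℝ, 0 < ε ∧ ε ≤ 1 ∧ ∀ (h v : Vec 2) (Q R : ℝ),
  1 ≤ Q → ¬ PwK ρ β h v g (pg Q ε) R

/-- The theorem (`d = 2`). -/
def MainWP : Prop := ∀ᵐ v : Vec 2, ∀ h : Vec 2, VSD ρ β h → ∃ c : ℝ, 0 < c ∧ ∃ᶠ n : ℕ in atTop,
  ∃ r : ℝ, 0 < r ∧ (n : ℝ) ^ (2 + c) <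
    r ^ 4 * ∫ η, (1 - PolT β h η (tube 2 n v r)) ∂(law 2 ρ)

end Two

/-- Leaf B3: numbers. -/
def NuK : Prop := ∀ C : ℝ, 1 ≤ C → ∃ C' c₁ : ℝ, 1 ≤ C' ∧ 0 < c₁ ∧ ∀ c Q R : ℝ, 0 < c →
  c ≤ c₁ → 1 ≤ Q → 1 ≤ R → ∃ Q' : ℝ, 1 ≤ Q' ∧ ∀ (n N : ℕ) (e : ℝ), 1 ≤ n → 1 ≤ N → 0 < e →
    (N : ℝ) ≤ 4 * n * e ^ 2 → e ≤ R * pg Q c (4 * N) ^ C * (1 + Real.log N) ^ C →
      2 * e ≤ pg Q' (C' * c) n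

end Pool.Agent.W_7d29a1_WP
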