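import Pool.Agent.W_7d29a1_WP.DefsPP98
import Pool.Agent.W_7d29a1_PL.BudS62
import Pool.Agent.W_7d29a1_SW.LkB96

/-!
The budget at one scale, from a ball and the variance; `BudW`.
-/

namespace Pool.Agent.W_7d29a1_WP

open MeasureTheory ProbabilityTheory Filter Topology Pool.Agent.W_MP_7d29a1_pr
  Pool.Agent.W_7d29a1_h46 Pool.Agent.W_7d29a1_h46u Pool.Agent.W_7d29a1_D2.B35
  Pool.Agent.W_7d29a1_Q29 Pool.Agent.W_7d29a1_R34 Pool.Agent.W_7d29a1_SP Pool.Agent.W_7d29a1_SD
  Pool.Agent.W_7d29a1_SW Pool.Agent.W_7d29a1_AM Pool.Agent.W_7d29a1_PL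

namespace BW98

open S98

variable {d : ℕ} {ρ : Measure ℝ} [IsProbabilityMeasure ρ]

/-- The mean mass of `B` at the position in `R`. -/
noncomputable def uR (ρ : Measure ℝ) (β : ℝ) (h : Vec d) (n t : ℕ) (R : Finset (Site d))
    (B : Set (Env d)) : ℝ :=
  ∫ η, ∑ y ∈ R, Qt β h n t y η * B.indicator (fun _ => (1 : ℝ)) (sh t y η) ∂(law d ρ)

lemma ind_nonneg (B : Set (Env d)) (η : Env d) : 0 ≤ B.indicator (fun _ => (1 : ℝ)) η :=
  Set.indicator_nonneg (fun _ _ => zero_le_one) _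

lemma ind_le_one (B : Set (Env d)) (η : Env d) : B.indicator (fun _ => (1 : ℝ)) η ≤ 1 :=
  Set.indicator_le_self' (fun _ _ => zero_le_one) _

lemma int_term (hd : 0 < d) (β : ℝ) (h : Vec d) {n t : ℕ} (ht : t ≤ n) {B : Set (Env d)}
    (hB : MeasurableSet B) (y : Site d) : Integrable (fun η => Qt β h n t y η *
      B.indicator (fun _ => (1 : ℝ)) (sh t y η)) (law d ρ) := by
  refine Integrable.mono' (integrable_const (1 : ℝ)) ((measurable_Qt β h n t y).mul
    ((measurable_const.indicator hB).comp (measurable_sh t y))).aestronglyMeasurable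
    (Eventually.of_forall fun η => ?_)
  have h1 := Qt_nonneg hd β h n t y η
  have h2 := Qt_le_one hd β h ht y η
  have h3 := ind_nonneg B (sh t y η)
  have h4 := ind_le_one B (sh t y η)
  rw [Real.norm_eq_abs, abs_of_nonneg (mul_nonneg h1 h3)]
  nlinarith

lemma int_Qt (hd : 0 < d) (β : ℝ) (h : Vec d) {n t : ℕ} (ht : t ≤ n) (y : Site d) :
    Integrable (fun η => Qt β h n t y η) (law d ρ) := by
  refine Integrable.mono' (integrable_const (1 : ℝ)) (measurable_Qt β h n t y).aestronglyMeasurable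
    (Eventually.of_forall fun η => ?_)
  rw [Real.norm_eq_abs, abs_of_nonneg (Qt_nonneg hd β h n t y η)]
  exact Qt_le_one hd β h ht y η

open Classical in
lemma us_le (hd : 0 < d) (β : ℝ) (h : Vec d) {n t : ℕ} (ht : t ≤ n) {R : Finset (Site d)}
    (hR : R ⊆ boxF d t) {B : Set (Env d)} (hB : MeasurableSet B) :
    us ρ β h n t B ≤ uR ρ β h n t R B + ∫ η, (1 - ∑ y ∈ R, Qt β h n t y η) ∂(law d ρ) := by
  unfold us uR
  have hi1 : Integrable (fun η => ∑ y ∈ R, Qt β h n t y η *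
      B.indicator (fun _ => (1 : ℝ)) (sh t y η)) (law d ρ) :=
    integrable_finsetSum _ fun y _ => int_term hd β h ht hB y
  have hi2 : Integrable (fun η => 1 - ∑ y ∈ R, Qt β h n t y η) (law d ρ) :=
    (integrable_const 1).sub (integrable_finsetSum _ fun y _ => int_Qt hd β h ht y)
  rw [← integral_add hi1 hi2]
  refine integral_mono (integrable_finsetSum _ fun y _ => int_term hd β h ht hB y)
    (hi1.add hi2) fun η => ?_
  have h1 := S98.Qt_sum hd β h ht η
  have h2 := Finset.sum_sdiff (f := fun y => Qt β h n t y η) hR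
  have h3 := Finset.sum_sdiff (f := fun y => Qt β h n t y η *
    B.indicator (fun _ => (1 : ℝ)) (sh t y η)) hR
  have h4 : ∑ y ∈ boxF d t \ R, Qt β h n t y η * B.indicator (fun _ => (1 : ℝ)) (sh t y η) ≤
      ∑ y ∈ boxF d t \ R, Qt β h n t y η := Finset.sum_le_sum fun y _ => by
    have e1 := Qt_nonneg hd β h n t y η
    have e2 := ind_le_one B (sh t y η)
    nlinarith
  show ∑ y ∈ boxF d t, Qt β h n t y η * B.indicator (fun _ => (1 : ℝ)) (sh t y η) ≤
    ∑ y ∈ R, Qt β h n t y η * B.indicator (fun _ => (1 : ℝ)) (sh t y η) +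
      (1 - ∑ y ∈ R, Qt β h n t y η)
  linarith

lemma us_le_one (hd : 0 < d) (β : ℝ) (h : Vec d) {n t : ℕ} (ht : t ≤ n) {B : Set (Env d)}
    (hB : MeasurableSet B) : us ρ β h n t B ≤ 1 := by
  have h1 := us_le (ρ := ρ) hd β h ht (R := ∅) (Finset.empty_subset _) hB
  unfold uR at h1
  simpa using h1

end BW98

open BW98 in
open Classical in
/-- The budget at one scale. -/
theorem bd98 {ρ : Measure ℝ} [IsProbabilityMeasure ρ] {β C₀ : ℝ} (hC₀ : 0 ≤ C₀) {h v : Vec 2}
    {n : ℕ} (hn : 6 ≤ n) {K : ℝ} (hK : 1 ≤ K)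
    (hNP : ∑ t ∈ Finset.Icc 1 n, St ρ β h n t ≤ C₀ * Va ρ β h n)
    (hloc : ∀ t : ℕ, t ≤ n → ∫ η, (1 - ∑ y ∈ bal v t (K * Real.sqrt n), Qt β h n t y η)
      ∂(law 2 ρ) ≤ 1 / 8) (hvar : Va ρ β h n ≤ K) :
    Bd ρ β h n (3 * Real.log K + (Real.log (C₀ + 1) + 8)) 1 := by
  intro I B θ D hB hD hJ
  have hd : 0 < 2 := by norm_num
  have hn0 : (6 : ℝ) ≤ n := by exact_mod_cast hn
  have hn0' : (0 : ℝ) < n := by linarith
  obtain ⟨S, hS⟩ : ∃ S : Finset ℕ, S = Finset.Icc 1 (n - 1) := ⟨_, rfl⟩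
  have hScard : (S.card : ℝ) = n - 1 := by
    rw [hS, Nat.card_Icc]
    rw [Nat.sub_add_cancel (by omega), Nat.cast_sub (by omega)]
    simp
  have hSne : S.Nonempty := by
    rw [hS]
    exact Finset.nonempty_Icc.2 (by omega)
  have hSn : ∀ t ∈ S, 1 ≤ t ∧ t ≤ n := fun t ht => by
    rw [hS, Finset.mem_Icc] at ht
    omega
  obtain ⟨w, hw⟩ : ∃ w : ℝ, w = K * Real.sqrt n := ⟨_, rfl⟩
  have hsq : 1 ≤ Real.sqrt n := by
    rw [Real.one_le_sqrt]
    linarith
  have hw1 : 1 ≤ w := by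
    rw [hw]
    exact one_le_mul_of_one_le_of_one_le hK hsq
  have hw2 : w ^ 2 = K ^ 2 * n := by
    rw [hw, mul_pow, Real.sq_sqrt hn0'.le]
  have hbal : ∀ t, bal v t w ⊆ boxF 2 t := fun t => by
    unfold bal
    exact Finset.filter_subset _ _
  have hN : ∀ t ∈ S, ((bal v t w).card : ℝ) ≤ 9 * w ^ 2 := fun t _ => card_bal96 v t hw1
  have hI : ∀ J, J ⊆ I → (law 2 ρ).real (⋂ p ∈ J, B p) ≤
      ∏ p ∈ J, (Real.exp D * Real.exp (-θ p)) := by
    intro J hJI
    refine (hJ J hJI).trans (le_of_eq ?_)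
    rw [Finset.prod_mul_distrib, Finset.prod_const, ← Real.exp_sum, ← Real.exp_nat_mul,
      ← Real.exp_add, Finset.sum_neg_distrib]
    congr 1
    ring
  have hdep : ∀ t ∈ S, ∀ p ∈ I, ∀ y, DependsOn (fun η : Env 2 => sh t y η ∈ B p) (Pa 2 t)ᶜ := by
    intro t _ p hp y η η' hη
    refine (hB p hp).2.1 fun q hq => ?_
    refine hη _ ?_
    intro h2
    have h3 : q.1 + t ≤ t := h2
    have h4 : 1 ≤ q.1 := hq
    omega
  have hV : ∑ t ∈ Finset.Icc 1 n, St ρ β h n t ≤ C₀ * K :=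
    hNP.trans (mul_le_mul_of_nonneg_left hvar hC₀)
  have hmain := budS62 (ρ := ρ) hd (β := β) (h := h) hSne hSn (fun t => bal v t w) hN I
    (fun p hp => (hB p hp).1) (fun p hp => (hB p hp).2.2) (Real.exp_pos D).le hI hdep hV
  -- the interchange
  have hex : ∀ t ∈ S, ∫ η, ∑ y ∈ bal v t w, Qt β h n t y η *
        ∑ p ∈ I, θ p * (B p).indicator (fun _ => (1 : ℝ)) (sh t y η) ∂(law 2 ρ) =
      ∑ p ∈ I, θ p * uR ρ β h n t (bal v t w) (B p) := by
    intro t ht
    have htn := (hSn t ht).2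
    have e1 : ∀ η : Env 2, ∑ y ∈ bal v t w, Qt β h n t y η *
        ∑ p ∈ I, θ p * (B p).indicator (fun _ => (1 : ℝ)) (sh t y η) =
        ∑ p ∈ I, θ p * ∑ y ∈ bal v t w, Qt β h n t y η *
          (B p).indicator (fun _ => (1 : ℝ)) (sh t y η) := by
      intro η
      simp only [Finset.mul_sum]
      rw [Finset.sum_comm]
      refine Finset.sum_congr rfl fun p _ => Finset.sum_congr rfl fun y _ => ?_
      ring
    simp only [e1]
    rw [integral_finsetSum _ fun p hp => (integrable_finsetSum _ fun y _ =>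
      int_term hd β h htn (hB p hp).1 y).const_mul _]
    refine Finset.sum_congr rfl fun p _ => ?_
    rw [integral_const_mul]
    rfl
  rw [Finset.sum_congr rfl hex, Finset.sum_comm] at hmain
  -- the average
  have hav : ∀ p ∈ I, (∑ t ∈ Finset.range n, us ρ β h n t (B p)) / n - 3 / 10 ≤
      (∑ t ∈ S, uR ρ β h n t (bal v t w) (B p)) / n := by
    intro p hp
    have h1 : ∑ t ∈ Finset.range n, us ρ β h n t (B p) =
        us ρ β h n 0 (B p) + ∑ t ∈ S, us ρ β h n t (B p) := by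
      have e1 : Finset.range n = insert 0 S := by
        ext t
        rw [hS, Finset.mem_insert, Finset.mem_Icc, Finset.mem_range]
        omega
      rw [e1, Finset.sum_insert (by rw [hS, Finset.mem_Icc]; omega)]
    have h2 : ∑ t ∈ S, us ρ β h n t (B p) ≤
        ∑ t ∈ S, (uR ρ β h n t (bal v t w) (B p) + 1 / 8) := by
      refine Finset.sum_le_sum fun t ht => ?_
      have h3 := us_le (ρ := ρ) hd β h (hSn t ht).2 (hbal t) (hB p hp).1
      have h4 := hloc t (hSn t ht).2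
      rw [← hw] at h4
      linarith
    rw [Finset.sum_add_distrib, Finset.sum_const, nsmul_eq_mul, hScard] at h2
    have h3 := us_le_one (ρ := ρ) hd β h (Nat.zero_le n) (hB p hp).1
    rw [h1, sub_le_iff_le_add, div_add' _ _ _ hn0'.ne', div_le_div_iff_of_pos_right hn0']
    linarith
  have hsum : ∑ p ∈ I, θ p * ((∑ t ∈ Finset.range n, us ρ β h n t (B p)) / n - 3 / 10) ≤
      (∑ p ∈ I, ∑ t ∈ S, θ p * uR ρ β h n t (bal v t w) (B p)) / n := by
    rw [Finset.sum_div]
    refine Finset.sum_le_sum fun p hp => ?_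
    rw [← Finset.mul_sum, mul_div_assoc]
    exact mul_le_mul_of_nonneg_left (hav p hp) (hB p hp).2.2
  refine hsum.trans ?_
  obtain ⟨k, hk⟩ : ∃ k : ℕ, k = I.card := ⟨_, rfl⟩
  obtain ⟨M, hM⟩ : ∃ M : ℝ, M = 18 * (C₀ + 1) * K ^ 3 := ⟨_, rfl⟩
  have hK3 : 1 ≤ K ^ 3 := one_le_pow₀ hK
  have hM1 : 1 ≤ M := by
    rw [hM]
    nlinarith
  have he : 1 ≤ 1 + Real.exp D := by linarith [Real.exp_pos D]
  have hek : 1 ≤ (1 + Real.exp D) ^ k := one_le_pow₀ he
  obtain ⟨x, hx⟩ : ∃ x : ℝ, x = (1 + Real.exp D) ^ k * M := ⟨_, rfl⟩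
  have hx1 : 1 ≤ x := by
    rw [hx]
    exact one_le_mul_of_one_le_of_one_le hek hM1
  have hxle : (1 + Real.exp D) ^ I.card * (9 * w ^ 2) * (C₀ * K) / S.card ≤ x := by
    rw [hx, ← hk, hScard, hw2, div_le_iff₀ (by linarith)]
    have e1 : 9 * (K ^ 2 * n) * (C₀ * K) ≤ M * (n - 1) := by
      rw [hM]
      have e2 : 9 * (K ^ 2 * (n : ℝ)) * (C₀ * K) = 9 * C₀ * K ^ 3 * n := by ring
      have e3 : 0 ≤ C₀ * K ^ 3 := by positivity
      have e4 : (n : ℝ) ≤ 2 * (n - 1) := by linarith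
      rw [e2]
      nlinarith [mul_le_mul_of_nonneg_left e4 e3]
    calc (1 + Real.exp D) ^ k * (9 * (K ^ 2 * n)) * (C₀ * K) =
          (1 + Real.exp D) ^ k * (9 * (K ^ 2 * n) * (C₀ * K)) := by ring
      _ ≤ (1 + Real.exp D) ^ k * (M * (n - 1)) :=
          mul_le_mul_of_nonneg_left e1 (by linarith)
      _ = (1 + Real.exp D) ^ k * M * (n - 1) := by ring
  have hlog : 2 * Real.log (1 + Real.sqrt x) ≤ 2 * Real.log 2 + Real.log x := by
    have h1 : 1 ≤ Real.sqrt x := by rwa [Real.one_le_sqrt]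
    have h2 : Real.log (1 + Real.sqrt x) ≤ Real.log (2 * Real.sqrt x) :=
      Real.log_le_log (by linarith) (by linarith)
    rw [Real.log_mul (by norm_num) (by linarith), Real.log_sqrt (by linarith)] at h2
    linarith
  have hlogx : Real.log x = k * Real.log (1 + Real.exp D) + (Real.log 18 +
      Real.log (C₀ + 1) + 3 * Real.log K) := by
    rw [hx, hM, Real.log_mul (by linarith) (by positivity), Real.log_pow,
      Real.log_mul (by positivity) (by positivity), Real.log_mul (by norm_num) (by linarith),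
      Real.log_pow]
    push_cast
    ring
  have hlD : Real.log (1 + Real.exp D) ≤ D + 1 := by
    have h1 : 1 + Real.exp D ≤ 2 * Real.exp D := by
      have := Real.one_le_exp hD
      linarith
    have h2 := Real.log_le_log (by linarith) h1
    rw [Real.log_mul (by norm_num) (Real.exp_pos D).ne', Real.log_exp] at h2
    linarith [Real.log_two_lt_d9]
  have hl18 : Real.log 18 ≤ 4 := by
    have h1 : Real.log 18 ≤ Real.log 32 := Real.log_le_log (by norm_num) (by norm_num)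
    have h3 : Real.log 32 = 5 * Real.log 2 := by
      rw [show (32 : ℝ) = 2 ^ 5 by norm_num, Real.log_pow]; norm_num
    linarith [Real.log_two_lt_d9]
  have hl0 : 0 ≤ Real.log (1 + Real.sqrt x) :=
    Real.log_nonneg (by linarith [Real.sqrt_nonneg x])
  have hmain2 : (∑ p ∈ I, ∑ t ∈ S, θ p * uR ρ β h n t (bal v t w) (B p)) / n ≤
      2 * Real.log (1 + Real.sqrt x) := by
    rw [div_le_iff₀ hn0']
    refine hmain.trans ?_
    have h1 : Real.log (1 + Real.sqrt ((1 + Real.exp D) ^ I.card * (9 * w ^ 2) * (C₀ * K) /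
        S.card)) ≤ Real.log (1 + Real.sqrt x) := by
      refine Real.log_le_log (by positivity) ?_
      have := Real.sqrt_le_sqrt hxle
      linarith
    rw [hScard]
    rw [hScard] at h1
    have h2 : 2 * ((n : ℝ) - 1) * Real.log (1 + Real.sqrt ((1 + Real.exp D) ^ I.card *
        (9 * w ^ 2) * (C₀ * K) / (n - 1))) ≤ 2 * ((n : ℝ) - 1) * Real.log (1 + Real.sqrt x) :=
      mul_le_mul_of_nonneg_left h1 (by linarith)
    nlinarith
  refine hmain2.trans ?_
  have hk0 : (0 : ℝ) ≤ k := Nat.cast_nonneg k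
  have h5 := mul_le_mul_of_nonneg_left hlD hk0
  rw [hlogx] at hlog
  rw [← hk]
  linarith [Real.log_two_lt_d9]

/-- BUD in the window form. -/
theorem budW98 {ρ : Measure ℝ} [IsProbabilityMeasure ρ] {β : ℝ} (hNP : NPB 2 ρ β) :
    BudW ρ β := by
  obtain ⟨C₀, hC₀, hNP⟩ := hNP
  intro g hg
  refine ⟨1, 4, one_pos, by norm_num, fun h v Q c R hQ hc _ hP => ?_⟩
  have hl : Tendsto (fun n : ℕ => Real.log n) atTop atTop :=
    Real.tendsto_log_atTop.comp tendsto_natCast_atTop_atTop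
  obtain ⟨n₁, hn₁⟩ := eventually_atTop.1 (hl.eventually_ge_atTop
    ((3 * Real.log Q + 3 * c + (Real.log (C₀ + 1) + 8)) / c))
  refine ⟨n₁ + 6, fun n hn => ?_⟩
  have hn0 : (1 : ℝ) ≤ n := by exact_mod_cast (by omega : 1 ≤ n)
  have hK : 1 ≤ pg Q c n := by
    unfold pg
    exact one_le_mul_of_one_le_of_one_le hQ (Real.one_le_rpow (by linarith) hc.le)
  have h1 := bd98 (ρ := ρ) (β := β) hC₀ (h := h) (v := v) (n := n) (by omega) hK (hNP h n)
    (fun t ht => hP.loc n t ht) (hP.var n)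
  have h2 := hn₁ n (by omega)
  rw [div_le_iff₀ hc] at h2
  have h3 : Real.log (pg Q c n) ≤ Real.log Q + c * (Real.log n + 1) := by
    unfold pg
    rw [Real.log_mul (by linarith) (by positivity), Real.log_rpow (by positivity)]
    have h4 : Real.log ((n : ℝ) + 1) ≤ Real.log n + 1 := by
      have h5 : Real.log ((n : ℝ) + 1) ≤ Real.log (2 * n) :=
        Real.log_le_log (by linarith) (by linarith)
      rw [Real.log_mul (by norm_num) (by linarith)] at h5
      linarith [Real.log_two_lt_d9]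
    have := mul_le_mul_of_nonneg_left h4 hc.le
    linarith
  intro I B θ D hB hD hJ
  refine (h1 I B θ D hB hD hJ).trans ?_
  have h6 : 0 ≤ (D + 1) * (I.card : ℝ) := by positivity
  nlinarith

end Pool.Agent.W_7d29a1_WP
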