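import Pool.Agent.W_7d29a1_WP.DefsWP
import Pool.Agent.W_7d29a1_PL.DefsPL

/-!
The point theorem of the power law in the window form (`d = 2`, one tilt): frozen statements of the
leaves. `PointPL` follows from `CorP`, `BudW`, `LowW`, `BetW`.
-/

namespace Pool.Agent.W_7d29a1_WP

open MeasureTheory ProbabilityTheory Filter Topology Pool.Agent.W_MP_7d29a1_pr
  Pool.Agent.W_7d29a1_h46 Pool.Agent.W_7d29a1_h46u Pool.Agent.W_7d29a1_D2.B35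
  Pool.Agent.W_7d29a1_Q29 Pool.Agent.W_7d29a1_R34 Pool.Agent.W_7d29a1_SP Pool.Agent.W_7d29a1_SD
  Pool.Agent.W_7d29a1_SW Pool.Agent.W_7d29a1_AM Pool.Agent.W_7d29a1_PL

variable (ρ : Measure ℝ) (β : ℝ)

/-- BUD in the window form: the budget at a good point. -/
def BudW : Prop := ∀ g : ℝ, 0 < g → ∃ c₁ C : ℝ, 0 < c₁ ∧ 0 ≤ C ∧
  ∀ (h v : Vec 2) (Q c R : ℝ), 1 ≤ Q → 0 < c → c ≤ c₁ → PwK ρ β h v g (pg Q c) R →
    ∃ n₀ : ℕ, ∀ n : ℕ, n₀ ≤ n → Bd ρ β h n (C * c * Real.log n) C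

/-- LOWQ in the window form: the fluctuation beats every multiple of the logarithm. -/
def LowW : Prop := ∀ g A : ℝ, 0 < g → ∃ c₁ : ℝ, 0 < c₁ ∧
  ∀ (h v : Vec 2) (Q c R : ℝ), 1 ≤ Q → 0 < c → c ≤ c₁ → PwK ρ β h v g (pg Q c) R →
    ∃ n₀ : ℕ, ∀ n : ℕ, n₀ ≤ n → ∃ k : ℕ, k ≤ n ∧ A * Real.log n ≤ fM ρ β h k

/-- BETQ in the window form: the upper bound of the nonrandom fluctuation. -/
def BetW : Prop := ∀ g : ℝ, 0 < g → ∃ c₁ : ℝ, 0 < c₁ ∧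
  ∀ (h v : Vec 2) (Q c R : ℝ), 1 ≤ Q → 0 < c → c ≤ c₁ → PwK ρ β h v g (pg Q c) R →
    ∃ n₀ : ℕ, ∀ n k : ℕ, n₀ ≤ n → k ≤ n → En ρ β h k ≤ (n : ℝ) ^ (8 * c)

/-- Theorem W0 with a power (`d = 2`): at every tilt of very strong disorder and around every
direction, the variance is at least `n ^ c` or the polymer leaves the tube of radius
`n ^ (1 / 2 + c)`, infinitely often. -/
def MainW0P : Prop := ∀ h : Vec 2, VSD ρ β h → ∃ c : ℝ, 0 < c ∧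
  ∀ v : Vec 2, ∃ ε : ℝ, 0 < ε ∧ ∃ᶠ n : ℕ in atTop, (n : ℝ) ^ c ≤ Va ρ β h n ∨
    ε ≤ ∫ η, (1 - PolT β h η (tube 2 n v ((n : ℝ) ^ (1 / 2 + c)))) ∂(law 2 ρ)

end Pool.Agent.W_7d29a1_WP
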