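import Pool.Agent.W_7d29a1_PL.LowQ15
import Pool.Agent.W_7d29a1_WP.DefsPP98
import Pool.Agent.W_7d29a1_SW.LkB96

/-!
The window form at one tilt (helper15): luck for any monotone bound of the variance, and the
fluctuation beats every multiple of the logarithm.
-/

namespace Pool.Agent.W_7d29a1_WP

open MeasureTheory ProbabilityTheory Filter Topology Pool.Agent.W_MP_7d29a1_pr
  Pool.Agent.W_7d29a1_h46 Pool.Agent.W_7d29a1_h46u Pool.Agent.W_7d29a1_D2.B35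
  Pool.Agent.W_7d29a1_Q29 Pool.Agent.W_7d29a1_R34 Pool.Agent.W_7d29a1_SP Pool.Agent.W_7d29a1_SD
  Pool.Agent.W_7d29a1_SW Pool.Agent.W_7d29a1_AM Pool.Agent.W_7d29a1_PL

variable {ρ : Measure ℝ} [IsProbabilityMeasure ρ]

/-- Luck at one tilt in the window form. -/
theorem lkW15 {β : ℝ} (hB : LkB ρ β) (hV : VbV 2 ρ β) : ∃ c₂ : ℝ, 0 < c₂ ∧ c₂ ≤ 1 / 2 ∧
    ∀ (h v : Vec 2) (g R : ℝ) (K : ℕ → ℝ), Monotone K → (∀ n, 1 ≤ K n) →
      PwK ρ β h v g K R → LkK ρ β h c₂ K 1000 := by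
  obtain ⟨c₂, hc₂, hc₂1, hB⟩ := hB (1 / 4000) (by norm_num) le_rfl
  refine ⟨c₂, hc₂, hc₂1, ?_⟩
  intro h v g R Kf hKm hKf P N L e S hN he _ _ hF hcard hS
  obtain ⟨K, hK⟩ : ∃ K, K = Kf (2 * N) := ⟨_, rfl⟩
  have hK1 : 1 ≤ K := by
    rw [hK]
    exact hKf _
  have hkap : ∀ t : ℕ, t ≤ 2 * N → Kf t ≤ K := by
    intro t ht
    rw [hK]
    exact hKm ht
  obtain ⟨m, hm1, hm2, hm3⟩ := hB h v N L e K S hN he hK1
    (fun hL => ((hV h L _).2.trans (P.var L)).trans (hkap L hL))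
    (fun hL t ht => (mass_mono96 β h v ht
      (mul_le_mul_of_nonneg_right (hkap L hL) (Real.sqrt_nonneg _))).trans (P.loc L t ht))
    hF hcard hS
  refine ⟨m, hm1, hm2, le_trans ?_ hm3⟩
  rw [← hK]
  refine div_le_div_of_nonneg_left hc₂.le (by positivity) ?_
  have he0 : 0 ≤ K * e := by
    have : 0 ≤ e := by linarith
    positivity
  nlinarith

/-- From `(log n) ^ 2 ≤ Φ` to every multiple of the logarithm. -/
lemma fMlog15 {β : ℝ} {h : Vec 2} (B : ℝ) (hΦ : ∃ n₁ : ℕ, ∀ n : ℕ, n₁ ≤ n → ∀ Φ : ℝ,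
      (∀ i : ℕ, i ≤ n → En ρ β h i ≤ Φ ∧ Fn ρ β h i ≤ Φ) → Real.log n ^ (2 : ℝ) ≤ Φ) :
    ∃ n₀ : ℕ, ∀ n : ℕ, n₀ ≤ n → ∃ k : ℕ, k ≤ n ∧ B * Real.log n ≤ W_7d29a1_PL.fM ρ β h k := by
  obtain ⟨n₁, hn₁⟩ := hΦ
  have hl : Tendsto (fun n : ℕ => Real.log n) atTop atTop :=
    Real.tendsto_log_atTop.comp tendsto_natCast_atTop_atTop
  obtain ⟨n₂, hn₂⟩ := eventually_atTop.1 (hl.eventually_ge_atTop (|B| + 1))
  refine ⟨max n₁ n₂, fun n hn => ?_⟩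
  by_contra hcon
  push Not at hcon
  have h1 := hn₁ n (by omega) (B * Real.log n) fun i hi => by
    have h2 := (hcon i hi).le
    unfold W_7d29a1_PL.fM at h2
    exact ⟨(le_max_left _ _).trans h2, (le_max_right _ _).trans h2⟩
  have h3 := hn₂ n (by omega)
  rw [Real.rpow_two] at h1
  have h4 : 0 ≤ |B| := abs_nonneg B
  have h5 : B ≤ |B| := le_abs_self B
  have h6 : B * Real.log n ≤ |B| * Real.log n := mul_le_mul_of_nonneg_right h5 (by linarith)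
  have h7 : (|B| + 1) * Real.log n ≤ Real.log n * Real.log n :=
    mul_le_mul_of_nonneg_right h3 (by linarith)
  have h8 : Real.log (n : ℝ) ^ 2 = Real.log n * Real.log n := sq _
  have h9 : (|B| + 1) * Real.log n = |B| * Real.log n + Real.log n := by ring
  linarith

lemma pg_mono15 {Q c : ℝ} (hQ : 1 ≤ Q) (hc : 0 < c) : Monotone (pg Q c) := kq_mono15 hQ hc

lemma one_le_pg15 {Q c : ℝ} (hQ : 1 ≤ Q) (hc : 0 < c) (t : ℕ) : 1 ≤ pg Q c t :=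
  one_le_kq15 hQ hc t

/-- **LOWW.** -/
theorem lowW15 (hρ : EM ρ) {β : ℝ} (hS : SeqP) (hG : GrowU 2 ρ β) (hB : LkB ρ β)
    (hV : VbV 2 ρ β) (hLoc : LocE 2 ρ β) (hGap : GapQ 2 ρ β) : LowW ρ β := by
  intro g B hg
  obtain ⟨c₀, hc₀, hLoc'⟩ := hLoc g hg
  obtain ⟨c₂, hc₂, hc₂1, hL'⟩ := lkW15 hB hV
  obtain ⟨C, hC, hG'⟩ := hG c₀ (10 ^ 5) hc₀ (by norm_num)
  obtain ⟨a, C', ha, hC', hgp⟩ := hGap g hg
  obtain ⟨ε₀, hε₀, hX⟩ := growK15 hρ (β := β) hS hC hc₂ hc₂1 ha (M := 2) (by norm_num)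
  refine ⟨ε₀, hε₀, fun h v Q c R hQ hc hcc hP => ?_⟩
  exact fMlog15 B (hX h C' Q c R 1000 hQ hc hcc le_rfl
    (fun n hn K hK hV => hgp h hP.gap n hn K hK hV) (hG' h (hLoc' h hP.gap))
    (hL' h v g R (pg Q c) (pg_mono15 hQ hc) (one_le_pg15 hQ hc) hP) hP.var hP.rate).2

end Pool.Agent.W_7d29a1_WP
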