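import Pool.Agent.W_7d29a1_PL.BetaK15
import Pool.Agent.W_7d29a1_WP.LowW15

/-!
BETQ in the window form.
-/

set_option autoImplicit false

namespace Pool.Agent.W_7d29a1_WP

open MeasureTheory ProbabilityTheory Filter Topology Pool.Agent.W_MP_7d29a1_pr
  Pool.Agent.W_7d29a1_h46 Pool.Agent.W_7d29a1_h46u Pool.Agent.W_7d29a1_D2.B35
  Pool.Agent.W_7d29a1_Q29 Pool.Agent.W_7d29a1_R34 Pool.Agent.W_7d29a1_SP Pool.Agent.W_7d29a1_SD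
  Pool.Agent.W_7d29a1_SW Pool.Agent.W_7d29a1_AM Pool.Agent.W_7d29a1_PL

lemma pg_pow26 {Q c e : ℝ} {n N : ℕ} (hQ : 1 ≤ Q) (hc : 0 < c) (hc1 : c ≤ 1 / 32) (hn : 1 ≤ n)
    (hN : 1 ≤ N) (he : (4 * Q ^ 4) ^ 4 ≤ e) (h1 : (n : ℝ) ^ (8 * c) ≤ 2 * e)
    (h2 : (N : ℝ) ≤ n * (2 * e) ^ 2) : pg Q c (2 * N) ^ 4 ≤ e := by
  have hQ0 : 0 < Q := by linarith
  have hn0 : (0 : ℝ) < n := by exact_mod_cast hn
  have hN1 : (1 : ℝ) ≤ N := by exact_mod_cast hN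
  have h44 : (1 : ℝ) ≤ (4 * Q ^ 4) ^ 4 := by
    have : 1 ≤ Q ^ 4 := one_le_pow₀ hQ
    refine one_le_pow₀ (by linarith)
  have he1 : 1 ≤ e := h44.trans he
  have he0 : 0 < e := by linarith
  have e1 : pg Q c (2 * N) ^ 4 = Q ^ 4 * (((2 * N : ℕ) : ℝ) + 1) ^ (4 * c) := by
    unfold pg
    rw [mul_pow, ← Real.rpow_natCast ((((2 * N : ℕ) : ℝ) + 1) ^ c) 4,
      ← Real.rpow_mul (by positivity)]
    congr 2
    push_cast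
    ring
  have h3 : ((2 * N : ℕ) : ℝ) + 1 ≤ n * (12 * e ^ 2) := by
    push_cast
    nlinarith
  have h4 : (((2 * N : ℕ) : ℝ) + 1) ^ (4 * c) ≤ (n : ℝ) ^ (4 * c) * (12 * e ^ 2) ^ (4 * c) := by
    rw [← Real.mul_rpow hn0.le (by positivity)]
    exact Real.rpow_le_rpow (by positivity) h3 (by positivity)
  have h5 : (n : ℝ) ^ (4 * c) ≤ (2 * e) ^ (1 / 2 : ℝ) := by
    have e2 : (n : ℝ) ^ (4 * c) = ((n : ℝ) ^ (8 * c)) ^ (1 / 2 : ℝ) := by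
      rw [← Real.rpow_mul hn0.le]
      congr 1
      ring
    rw [e2]
    exact Real.rpow_le_rpow (by positivity) h1 (by norm_num)
  have h6 : (12 * e ^ 2) ^ (4 * c) ≤ (12 * e ^ 2) ^ (1 / 8 : ℝ) := by
    refine Real.rpow_le_rpow_of_exponent_le ?_ (by linarith)
    nlinarith
  have h7 : (12 * e ^ 2) ^ (1 / 8 : ℝ) = (12 : ℝ) ^ (1 / 8 : ℝ) * e ^ (1 / 4 : ℝ) := by
    rw [Real.mul_rpow (by norm_num) (by positivity), ← Real.rpow_natCast e 2,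
      ← Real.rpow_mul he0.le]
    norm_num
  have h8 : (2 * e) ^ (1 / 2 : ℝ) = (2 : ℝ) ^ (1 / 2 : ℝ) * e ^ (1 / 2 : ℝ) :=
    Real.mul_rpow (by norm_num) he0.le
  have h9 : (12 : ℝ) ^ (1 / 8 : ℝ) ≤ 2 := by
    have e3 : (2 : ℝ) = (2 ^ 8 : ℝ) ^ (1 / 8 : ℝ) := by
      rw [← Real.rpow_natCast 2 8, ← Real.rpow_mul (by norm_num)]
      norm_num
    rw [e3]
    exact Real.rpow_le_rpow (by norm_num) (by norm_num) (by norm_num)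
  have h10 : (2 : ℝ) ^ (1 / 2 : ℝ) ≤ 2 := by
    calc (2 : ℝ) ^ (1 / 2 : ℝ) ≤ 2 ^ (1 : ℝ) :=
          Real.rpow_le_rpow_of_exponent_le (by norm_num) (by norm_num)
      _ = 2 := Real.rpow_one _
  have h11 : (((2 * N : ℕ) : ℝ) + 1) ^ (4 * c) ≤ 4 * e ^ (3 / 4 : ℝ) := by
    have e4 : e ^ (3 / 4 : ℝ) = e ^ (1 / 2 : ℝ) * e ^ (1 / 4 : ℝ) := by
      rw [← Real.rpow_add he0]
      norm_num
    have p1 : 0 ≤ e ^ (1 / 2 : ℝ) := by positivity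
    have p2 : 0 ≤ e ^ (1 / 4 : ℝ) := by positivity
    calc (((2 * N : ℕ) : ℝ) + 1) ^ (4 * c) ≤ (n : ℝ) ^ (4 * c) * (12 * e ^ 2) ^ (4 * c) := h4
      _ ≤ ((2 : ℝ) ^ (1 / 2 : ℝ) * e ^ (1 / 2 : ℝ)) *
          ((12 : ℝ) ^ (1 / 8 : ℝ) * e ^ (1 / 4 : ℝ)) :=
          mul_le_mul (h5.trans_eq h8) (h6.trans_eq h7) (by positivity) (by positivity)
      _ ≤ (2 * e ^ (1 / 2 : ℝ)) * (2 * e ^ (1 / 4 : ℝ)) := by gcongr
      _ = 4 * e ^ (3 / 4 : ℝ) := by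
          rw [e4]
          ring
  have h12 : 4 * Q ^ 4 ≤ e ^ (1 / 4 : ℝ) := by
    have e5 : 4 * Q ^ 4 = ((4 * Q ^ 4) ^ 4) ^ (1 / 4 : ℝ) := by
      rw [← Real.rpow_natCast (4 * Q ^ 4) 4, ← Real.rpow_mul (by positivity)]
      norm_num
    rw [e5]
    exact Real.rpow_le_rpow (by positivity) he (by norm_num)
  rw [e1]
  calc Q ^ 4 * (((2 * N : ℕ) : ℝ) + 1) ^ (4 * c) ≤ Q ^ 4 * (4 * e ^ (3 / 4 : ℝ)) :=
        mul_le_mul_of_nonneg_left h11 (by positivity)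
    _ = (4 * Q ^ 4) * e ^ (3 / 4 : ℝ) := by ring
    _ ≤ e ^ (1 / 4 : ℝ) * e ^ (3 / 4 : ℝ) := mul_le_mul_of_nonneg_right h12 (by positivity)
    _ = e := by
        rw [← Real.rpow_add he0]
        norm_num

/-- **BETW.** -/
theorem betW26 {ρ : Measure ℝ} [IsProbabilityMeasure ρ] (hρ : EM ρ) {β : ℝ} (hS : SeqP)
    (hB : LkB ρ β) (hV : VbV 2 ρ β) : BetW ρ β := by
  intro g _
  obtain ⟨c₂, hc₂, -, hL'⟩ := lkW15 hB hV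
  refine ⟨1 / 32, by norm_num, fun h v Q c R hQ hc hc1 hP => ?_⟩
  refine betaK15 hρ hS hc₂ (Kf := pg Q c) (pg_mono15 hQ hc) (one_le_pg15 hQ hc) le_rfl
    (hL' h v g R (pg Q c) (pg_mono15 hQ hc) (one_le_pg15 hQ hc) hP) hP.var hP.rate
    (Yf := fun n : ℕ => (n : ℝ) ^ (8 * c)) ?_ ?_
  · exact (tendsto_rpow_atTop (by positivity)).comp tendsto_natCast_atTop_atTop
  · exact ⟨(4 * Q ^ 4) ^ 4, fun n N e hn hN he h1 h2 => pg_pow26 hQ hc hc1 hn hN he h1 h2⟩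

end Pool.Agent.W_7d29a1_WP
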