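import Pool.Agent.W_7d29a1_WP.DefsWP
import Pool.Agent.W_7d29a1_SW.BkW66

/-!
Theorem W with a power, leaf C3: from the tails of the resampling to the bulk variance.
-/

namespace Pool.Agent.W_7d29a1_WP

open MeasureTheory ProbabilityTheory Filter Topology Pool.Agent.W_MP_7d29a1_pr
  Pool.Agent.W_7d29a1_h46 Pool.Agent.W_7d29a1_h46u Pool.Agent.W_7d29a1_D2.B35
  Pool.Agent.W_7d29a1_Q29 Pool.Agent.W_7d29a1_R34 Pool.Agent.W_7d29a1_SP Pool.Agent.W_7d29a1_SD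
  Pool.Agent.W_7d29a1_SW

variable {d : ℕ} {ρ : Measure ℝ}

/-- **Leaf C3.** -/
theorem bkK66 [IsProbabilityMeasure ρ] (hd : 0 < d) (hρ : EM ρ) (β : ℝ) : BkK d ρ β := by
  intro h c θ C₁ κ n₁ hc _ hC₁ hκ hRS
  obtain ⟨C4, hC4, hmom⟩ := momU (ρ := ρ) hd hρ β 4
  obtain ⟨κ', hκ'⟩ : ∃ κ' : ℝ, κ' = min κ 1 := ⟨_, rfl⟩
  have hκ0 : 0 < κ' := by
    rw [hκ']
    exact lt_min hκ one_pos
  have hκ1 : κ' ≤ 1 := by
    rw [hκ']
    exact min_le_right _ _
  have hκk : κ' ≤ κ := by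
    rw [hκ']
    exact min_le_left _ _
  obtain ⟨n₂, hn₂⟩ : ∃ n₂ : ℕ, n₂ = n₁ + ⌈1 / κ' ^ 2⌉₊ + 1 := ⟨_, rfl⟩
  obtain ⟨V, hV⟩ : ∃ V : ℝ, V = ∑ n ∈ Finset.range n₂, Vb ρ β h n ⌊θ * n⌋₊ := ⟨_, rfl⟩
  have hVb0 : ∀ n p : ℕ, 0 ≤ Vb ρ β h n p := fun n p => integral_nonneg fun η => sq_nonneg _
  have hV0 : 0 ≤ V := by
    rw [hV]
    exact Finset.sum_nonneg fun n _ => hVb0 _ _
  have hlog2 : (1 : ℝ) / 2 ≤ Real.log 2 := by
    have := Real.log_two_gt_d9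
    linarith
  refine ⟨V + (C₁ ^ 2 + 80 * C₁ ^ 2 + 16 * C4 / κ' ^ 4), by positivity, fun n => ?_⟩
  have hf1 : 1 ≤ pg 1 c n := by
    unfold pg
    rw [one_mul]
    exact Real.one_le_rpow (by
      have := Nat.cast_nonneg (α := ℝ) n
      linarith) hc.le
  have hf0 : 0 ≤ pg 1 c n := zero_le_one.trans hf1
  have hl0 : 0 ≤ Real.log n := Real.log_natCast_nonneg n
  have hfl : 1 ≤ pg 1 c n * (1 + Real.log n) := by nlinarith
  have hfl' : ∀ a : ℝ, 0 ≤ a → a ≤ a * pg 1 c n * (1 + Real.log n) := by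
    intro a ha
    rw [mul_assoc]
    nlinarith
  rcases lt_or_ge n n₂ with hn | hn
  · have h1 : Vb ρ β h n ⌊θ * n⌋₊ ≤ V := by
      rw [hV]
      exact Finset.single_le_sum (f := fun n : ℕ => Vb ρ β h n ⌊θ * n⌋₊)
        (fun n _ => hVb0 _ _) (Finset.mem_range.2 hn)
    have h2 : 0 ≤ C₁ ^ 2 + 80 * C₁ ^ 2 + 16 * C4 / κ' ^ 4 := by positivity
    exact h1.trans ((by linarith : V ≤ V + (C₁ ^ 2 + 80 * C₁ ^ 2 + 16 * C4 / κ' ^ 4)).trans
      (hfl' _ (by positivity)))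
  · have hn1 : 1 ≤ n := by omega
    have hnp : (0 : ℝ) < n := by exact_mod_cast hn1
    have hn₁ : n₁ ≤ n := by omega
    have hκn : 1 ≤ κ' ^ 2 * n := by
      have h1 : 1 / κ' ^ 2 ≤ n := by
        refine (Nat.le_ceil _).trans ?_
        have : ⌈1 / κ' ^ 2⌉₊ ≤ n := by omega
        exact_mod_cast this
      rw [div_le_iff₀ (by positivity)] at h1
      linarith
    obtain ⟨a, ha⟩ : ∃ a : ℕ, a = ⌊κ' ^ 2 * n⌋₊ := ⟨_, rfl⟩
    have ha1 : 1 ≤ a := by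
      rw [ha]
      exact Nat.le_floor (by simpa using hκn)
    have ha2 : (a : ℝ) ≤ κ' ^ 2 * n := by
      rw [ha]
      exact Nat.floor_le (by positivity)
    have ha3 : κ' ^ 2 * n < a + 1 := by
      rw [ha]
      exact Nat.lt_floor_add_one _
    obtain ⟨J, hJ⟩ : ∃ J : ℕ, J = Nat.log 2 a := ⟨_, rfl⟩
    have hJ1 : (2 : ℝ) ^ J ≤ κ' ^ 2 * n := by
      have h1 : 2 ^ J ≤ a := by
        rw [hJ]
        exact Nat.pow_log_le_self 2 (by omega)
      have h2 : (2 : ℝ) ^ J ≤ a := by exact_mod_cast h1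
      exact h2.trans ha2
    have hJ2 : κ' ^ 2 * n ≤ 2 ^ (J + 1) := by
      have h1 : a + 1 ≤ 2 ^ (J + 1) := by
        rw [hJ]
        exact Nat.lt_pow_succ_log_self (by norm_num) a
      have h2 : (a : ℝ) + 1 ≤ 2 ^ (J + 1) := by exact_mod_cast h1
      linarith
    have hC0 : (0 : ℝ) < C₁ := by linarith
    obtain ⟨hi, hb⟩ := hmom h n hn1
    have hb' : ∫ η, |X β h η n - A ρ β h n| ^ 4 ∂(law d ρ) ≤ C4 * (n : ℝ) ^ 2 := by
      refine hb.trans (le_of_eq ?_)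
      congr 1
      rw [show ((1 / 2 : ℝ) * ((4 : ℕ) : ℝ)) = ((2 : ℕ) : ℝ) by norm_num, Real.rpow_natCast]
    have h1 := one66 (ρ := ρ) hd hρ h hn1 hC0 ⌊θ * n⌋₊ (J + 1) hi hb'
    -- the layers
    have h2 : ∀ j ∈ Finset.range (J + 1), (4 : ℝ) ^ (j + 1) * C₁ ^ 2 *
        ((law d ρ).prod (law d ρ)).real
          {w | C₁ * 2 ^ j < |X β h w.1 n - X β h (spl (Pa d ⌊θ * n⌋₊) w.1 w.2) n|} ≤
        40 * C₁ ^ 2 * pg 1 c n := by
      intro j hj
      have hj' : j ≤ J := by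
        have := Finset.mem_range.1 hj
        omega
      have h3 : (1 : ℝ) ≤ 2 ^ j := one_le_pow₀ (by norm_num)
      have h4 : (2 : ℝ) ^ j ≤ κ' ^ 2 * n := (pow_le_pow_right₀ (by norm_num) hj').trans hJ1
      obtain ⟨R, hR⟩ : ∃ R : ℝ, R = Real.sqrt (2 ^ j) := ⟨_, rfl⟩
      have hR2 : R ^ 2 = 2 ^ j := by
        rw [hR]
        exact Real.sq_sqrt (by positivity)
      have hR0 : 0 ≤ R := by
        rw [hR]
        exact Real.sqrt_nonneg _
      have hR1 : 1 ≤ R := by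
        rw [hR]
        exact Real.one_le_sqrt.2 h3
      have hRk : R ≤ κ * Real.sqrt n := by
        have h5 : R ≤ κ' * Real.sqrt n := by
          refine abs_le_of_sq_le_sq' ?_ (by positivity) |>.2
          rw [hR2, mul_pow, Real.sq_sqrt hnp.le]
          exact h4
        exact h5.trans (mul_le_mul_of_nonneg_right hκk (Real.sqrt_nonneg _))
      have h6 := hRS n hn₁ R hR1 hRk
      unfold RS at h6
      rw [hR2, show R ^ 4 = (4 : ℝ) ^ j by
        rw [show (4 : ℕ) = 2 * 2 from rfl, pow_mul, hR2, ← pow_mul, mul_comm j 2, pow_mul]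
        norm_num] at h6
      have h7 : (0 : ℝ) < 4 ^ j := by positivity
      calc (4 : ℝ) ^ (j + 1) * C₁ ^ 2 * ((law d ρ).prod (law d ρ)).real
            {w | C₁ * 2 ^ j < |X β h w.1 n - X β h (spl (Pa d ⌊θ * n⌋₊) w.1 w.2) n|}
          ≤ (4 : ℝ) ^ (j + 1) * C₁ ^ 2 *
            (10 * (pg 1 c n / 4 ^ j)) :=
            mul_le_mul_of_nonneg_left h6 (by positivity)
        _ = 40 * C₁ ^ 2 * pg 1 c n := by
            rw [pow_succ]
            field_simp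
            ring
    have h3 := Finset.sum_le_sum h2
    rw [Finset.sum_const, Finset.card_range, nsmul_eq_mul] at h3
    -- the number of layers
    have hJl : ((J + 1 : ℕ) : ℝ) ≤ 2 * (1 + Real.log n) := by
      have h5 : (2 : ℝ) ^ J ≤ n := by
        refine hJ1.trans ?_
        have : κ' ^ 2 ≤ 1 := by nlinarith
        nlinarith
      have h6 := Real.log_le_log (by positivity) h5
      rw [Real.log_pow] at h6
      have h7 : (J : ℝ) * (1 / 2) ≤ J * Real.log 2 :=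
        mul_le_mul_of_nonneg_left hlog2 (Nat.cast_nonneg _)
      push_cast
      linarith
    have h4 : ((J + 1 : ℕ) : ℝ) * (40 * C₁ ^ 2 * pg 1 c n) ≤
        80 * C₁ ^ 2 * pg 1 c n * (1 + Real.log n) := by
      have h5 : 0 ≤ 40 * C₁ ^ 2 * pg 1 c n := by positivity
      have h6 := mul_le_mul_of_nonneg_right hJl h5
      linarith
    -- the tail
    have h5 : 16 * (C4 * (n : ℝ) ^ 2) / (C₁ * 2 ^ (J + 1)) ^ 2 ≤ 16 * C4 / κ' ^ 4 := by
      have h6 : κ' ^ 2 * n ≤ C₁ * 2 ^ (J + 1) := by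
        have : (0 : ℝ) < 2 ^ (J + 1) := by positivity
        nlinarith
      have h7 : (κ' ^ 2 * n) ^ 2 ≤ (C₁ * 2 ^ (J + 1)) ^ 2 :=
        pow_le_pow_left₀ (by positivity) h6 2
      calc 16 * (C4 * (n : ℝ) ^ 2) / (C₁ * 2 ^ (J + 1)) ^ 2
          ≤ 16 * (C4 * (n : ℝ) ^ 2) / (κ' ^ 2 * n) ^ 2 :=
            div_le_div_of_nonneg_left (by positivity) (by positivity) h7
        _ = 16 * C4 / κ' ^ 4 := by field_simp
    have h6 := hfl' (C₁ ^ 2) (by positivity)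
    have h7 := hfl' (16 * C4 / κ' ^ 4) (by positivity)
    have h8 := hfl' V hV0
    have h9 : (V + (C₁ ^ 2 + 80 * C₁ ^ 2 + 16 * C4 / κ' ^ 4)) *
        pg 1 c n * (1 + Real.log n) =
        V * pg 1 c n * (1 + Real.log n) +
        C₁ ^ 2 * pg 1 c n * (1 + Real.log n) +
        80 * C₁ ^ 2 * pg 1 c n * (1 + Real.log n) +
        16 * C4 / κ' ^ 4 * pg 1 c n * (1 + Real.log n) := by
      ring
    rw [h9]
    linarith

end Pool.Agent.W_7d29a1_WP
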