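import Pool.Agent.W_7d29a1_SW.WDat98
import Pool.Agent.W_7d29a1_WP.DefsWP

/-!
Theorem W with a power, leaf C5: the window from the fourth moment.
-/

namespace Pool.Agent.W_7d29a1_WP

open MeasureTheory ProbabilityTheory Filter Topology Pool.Agent.W_MP_7d29a1_pr
  Pool.Agent.W_7d29a1_h46 Pool.Agent.W_7d29a1_h46u Pool.Agent.W_7d29a1_D2.B35
  Pool.Agent.W_7d29a1_Q29 Pool.Agent.W_7d29a1_R34 Pool.Agent.W_7d29a1_SP Pool.Agent.W_7d29a1_SD
  Pool.Agent.W_7d29a1_SW Pool.Agent.W_7d29a1_AM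

open W098 in
/-- Leaf C5: the window. -/
theorem lcK98 {d : ℕ} {ρ : Measure ℝ} [IsProbabilityMeasure ρ] (hd : 0 < d) (β : ℝ) :
    LcK d ρ β := by
  classical
  intro h v c n₀ hc0 _ hH
  have hv0 := norm_nonneg v
  obtain ⟨Q, hQ⟩ : ∃ Q : ℝ, Q = 2 + (1 + ‖v‖) * ((n₀ : ℝ) + 2) := ⟨_, rfl⟩
  have hvN : 0 ≤ (1 + ‖v‖) * ((n₀ : ℝ) + 2) := by positivity
  have hQ2 : 2 ≤ Q := by
    rw [hQ]
    linarith
  have hQ1 : 1 ≤ Q := by linarith
  have hexp1 : ∀ n : ℕ, 1 ≤ ((n : ℝ) + 1) ^ c := fun n =>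
    Real.one_le_rpow (by linarith [Nat.cast_nonneg (α := ℝ) n]) hc0.le
  refine ⟨Q, hQ1, fun n t ht => ?_⟩
  rcases lt_or_ge n (n₀ + 1) with hn | hn
  · have h1 : (1 + ‖v‖) * (t : ℝ) ≤ pg Q c n * Real.sqrt n := by
      have e1 : (t : ℝ) ≤ n := by exact_mod_cast ht
      have e2 : (n : ℝ) ≤ n₀ + 1 := by exact_mod_cast hn.le
      have e3 : Real.sqrt n * Real.sqrt n = n := Real.mul_self_sqrt (Nat.cast_nonneg n)
      have e4 : Real.sqrt n ≤ n₀ + 2 := by
        rw [Real.sqrt_le_left (by positivity)]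
        nlinarith [Nat.cast_nonneg (α := ℝ) n, Nat.cast_nonneg (α := ℝ) n₀]
      have e5 : (1 + ‖v‖) * ((n₀ : ℝ) + 2) ≤ pg Q c n := by
        have e6 : Q ≤ pg Q c n := by
          unfold pg
          exact le_mul_of_one_le_right (by linarith) (hexp1 n)
        refine le_trans ?_ e6
        rw [hQ]
        linarith
      calc (1 + ‖v‖) * (t : ℝ) ≤ (1 + ‖v‖) * n :=
            mul_le_mul_of_nonneg_left e1 (by positivity)
        _ = ((1 + ‖v‖) * Real.sqrt n) * Real.sqrt n := by rw [mul_assoc, e3]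
        _ ≤ ((1 + ‖v‖) * ((n₀ : ℝ) + 2)) * Real.sqrt n :=
            mul_le_mul_of_nonneg_right (mul_le_mul_of_nonneg_left e4 (by positivity))
              (Real.sqrt_nonneg _)
        _ ≤ pg Q c n * Real.sqrt n := mul_le_mul_of_nonneg_right e5 (Real.sqrt_nonneg _)
    have h2 : (fun η : Env d => 1 - ∑ y ∈ bal v t (pg Q c n * Real.sqrt n),
        Qt β h n t y η) = fun _ => 0 := by
      funext η
      exact bal_all98 hd ht β h v h1 η
    rw [h2, integral_zero]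
    norm_num
  · have hn1 : 1 ≤ n := by omega
    have hn0 : (0 : ℝ) < n := by exact_mod_cast hn1
    obtain ⟨r, hr⟩ : ∃ r : ℝ, r = pg Q c n * Real.sqrt n := ⟨_, rfl⟩
    have hk0 : 0 < pg Q c n := by
      unfold pg
      exact mul_pos (by linarith) (by positivity)
    have hr0 : 0 < r := by
      rw [hr]
      exact mul_pos hk0 (Real.sqrt_pos.2 hn0)
    have h1 := hH n (by omega) r hr0
    obtain ⟨E, hE⟩ : ∃ E : ℝ, E = ((n : ℝ) + 1) ^ c := ⟨_, rfl⟩
    have hE' : pg 1 c n = E := by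
      rw [hE]
      unfold pg
      rw [one_mul]
    rw [hE'] at h1
    have hE1 : 1 ≤ E := by
      rw [hE]
      exact hexp1 n
    have h3 : r ^ 4 = (Q * E) ^ 4 * (n : ℝ) ^ 2 := by
      rw [hr]
      unfold pg
      rw [← hE, mul_pow (Q * E)]
      congr 1
      rw [show (4 : ℕ) = 2 * 2 from rfl, pow_mul, Real.sq_sqrt hn0.le]
    have h4 : ∫ η, (1 - PolT β h η (tube d n v r)) ∂(law d ρ) ≤ 1 / 8 := by
      by_contra hcon
      rw [not_le] at hcon
      have e1 : r ^ 4 * (1 / 8) < r ^ 4 * ∫ η, (1 - PolT β h η (tube d n v r)) ∂(law d ρ) :=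
        mul_lt_mul_of_pos_left hcon (pow_pos hr0 4)
      have e2 : (Q * E) ^ 4 * (n : ℝ) ^ 2 * (1 / 8) < (n : ℝ) ^ 2 * E := by
        rw [← h3]
        linarith
      have e3 : 0 < (n : ℝ) ^ 2 := by positivity
      have e4 : (Q * E) ^ 4 * (1 / 8) < E := by
        have e5 : (n : ℝ) ^ 2 * ((Q * E) ^ 4 * (1 / 8)) < (n : ℝ) ^ 2 * E := by
          calc (n : ℝ) ^ 2 * ((Q * E) ^ 4 * (1 / 8)) = (Q * E) ^ 4 * (n : ℝ) ^ 2 * (1 / 8) := by
                ring
            _ < (n : ℝ) ^ 2 * E := e2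
        exact lt_of_mul_lt_mul_left e5 e3.le
      have e6 : (16 : ℝ) ≤ Q ^ 4 := by
        calc (16 : ℝ) = 2 ^ 4 := by norm_num
          _ ≤ Q ^ 4 := pow_le_pow_left₀ (by norm_num) hQ2 4
      have e7 : E ≤ E ^ 4 := le_self_pow₀ hE1 (by norm_num)
      have e8 : (Q * E) ^ 4 = Q ^ 4 * E ^ 4 := mul_pow _ _ _
      nlinarith [mul_le_mul e6 e7 (by linarith) (by linarith : (0 : ℝ) ≤ Q ^ 4)]
    refine le_trans ?_ h4
    have hint : ∀ (S : Set (Fin n → Step d)),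
        Integrable (fun η : Env d => 1 - PolT β h η S) (law d ρ) := fun S =>
      (integrable_const 1).sub (integrable_PolT72 β h _)
    rw [← hr]
    refine integral_mono ?_ (hint _) fun η => bal_tube98 ht β h v le_rfl η
    have h5 : (fun η : Env d => 1 - ∑ y ∈ bal v t r, Qt β h n t y η) = fun η =>
        1 - PolT β h η {s : Fin n → Step d | pos s t ∈ bal v t r} := by
      funext η
      rw [sum_Qt ht]
    rw [h5]
    exact hint _

end Pool.Agent.W_7d29a1_WP
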