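import Pool.Agent.W_7d29a1_WP.DefsWP

/-!
Theorem W with a power, leaf B3: numbers (helper83).
-/

namespace Pool.Agent.W_7d29a1_WP

open MeasureTheory ProbabilityTheory Filter Topology

theorem nuK83 : NuK := by
  intro C hC
  have hC0 : 0 < C := by linarith
  refine ⟨4 * C, 1 / (8 * C), by linarith, by positivity, fun c Q R hc hc1 hQ hR => ?_⟩
  have hcC : c * C ≤ 1 / 8 := by
    rw [le_div_iff₀ (by positivity)] at hc1
    linarith
  have hc1' : c ≤ 1 := by nlinarith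
  obtain ⟨D, hD⟩ : ∃ D, D = R * (Q * 5) ^ C * (1 + 1 / c) ^ C := ⟨_, rfl⟩
  have hD1 : 1 ≤ D := by
    rw [hD]
    have h1 : 1 ≤ (Q * 5) ^ C := Real.one_le_rpow (by nlinarith) hC0.le
    have h2 : 1 ≤ (1 + 1 / c) ^ C := Real.one_le_rpow (by
      have : 0 < 1 / c := by positivity
      linarith) hC0.le
    exact one_le_mul_of_one_le_of_one_le (one_le_mul_of_one_le_of_one_le hR h1) h2
  have hD0 : 0 < D := by linarith
  refine ⟨32 * D ^ 2, by nlinarith, fun n N e hn hN he hNe heb => ?_⟩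
  have hnR : (1 : ℝ) ≤ n := by exact_mod_cast hn
  have hNR : (1 : ℝ) ≤ N := by exact_mod_cast hN
  have hn0 : (0 : ℝ) < n := by linarith
  have hN0 : (0 : ℝ) < N := by linarith
  obtain ⟨a, ha⟩ : ∃ a, a = 2 * (c * C) := ⟨_, rfl⟩
  have ha0 : 0 < a := by rw [ha]; positivity
  have ha1 : a ≤ 1 / 4 := by rw [ha]; linarith
  -- the bound by a power of `N`
  have h1 : e ≤ D * (N : ℝ) ^ a := by
    refine heb.trans ?_
    have e1 : pg Q c (4 * N) ≤ Q * 5 * (N : ℝ) ^ c := by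
      unfold pg
      have f1 : (((4 * N : ℕ) : ℝ) + 1) ^ c ≤ (5 * (N : ℝ)) ^ c := by
        refine Real.rpow_le_rpow (by positivity) ?_ hc.le
        push_cast
        linarith
      have f2 : (5 * (N : ℝ)) ^ c = 5 ^ c * (N : ℝ) ^ c := Real.mul_rpow (by norm_num) hN0.le
      have f3 : (5 : ℝ) ^ c ≤ 5 := by
        calc (5 : ℝ) ^ c ≤ 5 ^ (1 : ℝ) := Real.rpow_le_rpow_of_exponent_le (by norm_num) hc1'
          _ = 5 := Real.rpow_one 5
      have f4 : 0 ≤ (N : ℝ) ^ c := by positivity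
      calc Q * (((4 * N : ℕ) : ℝ) + 1) ^ c ≤ Q * (5 * (N : ℝ) ^ c) := by
            refine mul_le_mul_of_nonneg_left ?_ (by linarith)
            rw [f2] at f1
            exact f1.trans (mul_le_mul_of_nonneg_right f3 f4)
        _ = Q * 5 * (N : ℝ) ^ c := by ring
    have e2 : 1 + Real.log N ≤ (1 + 1 / c) * (N : ℝ) ^ c := by
      have f1 : Real.log (N : ℝ) ≤ (N : ℝ) ^ c / c := Real.log_le_rpow_div hN0.le hc
      have f2 : 1 ≤ (N : ℝ) ^ c := Real.one_le_rpow hNR hc.le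
      have f3 : (1 + 1 / c) * (N : ℝ) ^ c = (N : ℝ) ^ c + (N : ℝ) ^ c / c := by ring
      rw [f3]
      linarith
    have hpg0 : 0 ≤ pg Q c (4 * N) := by unfold pg; positivity
    have hl0 : 0 ≤ 1 + Real.log (N : ℝ) := by
      have := Real.log_nonneg hNR
      linarith
    have e3 : pg Q c (4 * N) ^ C ≤ (Q * 5 * (N : ℝ) ^ c) ^ C :=
      Real.rpow_le_rpow hpg0 e1 hC0.le
    have e4 : (1 + Real.log N) ^ C ≤ ((1 + 1 / c) * (N : ℝ) ^ c) ^ C :=
      Real.rpow_le_rpow hl0 e2 hC0.le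
    have e5 : (Q * 5 * (N : ℝ) ^ c) ^ C = (Q * 5) ^ C * ((N : ℝ) ^ c) ^ C :=
      Real.mul_rpow (by positivity) (by positivity)
    have e6 : ((1 + 1 / c) * (N : ℝ) ^ c) ^ C = (1 + 1 / c) ^ C * ((N : ℝ) ^ c) ^ C :=
      Real.mul_rpow (by positivity) (by positivity)
    have e7 : ((N : ℝ) ^ c) ^ C * ((N : ℝ) ^ c) ^ C = (N : ℝ) ^ a := by
      rw [← Real.rpow_mul hN0.le, ← Real.rpow_add hN0, ha]
      ring_nf
    calc R * pg Q c (4 * N) ^ C * (1 + Real.log N) ^ C
        ≤ R * (Q * 5 * (N : ℝ) ^ c) ^ C * ((1 + 1 / c) * (N : ℝ) ^ c) ^ C := by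
          refine mul_le_mul (mul_le_mul_of_nonneg_left e3 (by linarith)) e4 ?_ (by positivity)
          positivity
      _ = D * (((N : ℝ) ^ c) ^ C * ((N : ℝ) ^ c) ^ C) := by
          rw [e5, e6, hD]
          ring
      _ = D * (N : ℝ) ^ a := by rw [e7]
  -- the bound of `e`
  have h2 : e ≤ 16 * D ^ 2 * (n : ℝ) ^ (2 * a) := by
    have hna : 1 ≤ (n : ℝ) ^ (2 * a) := Real.one_le_rpow hnR (by linarith)
    rcases le_or_gt e 1 with he1 | he1
    · have f1 : 1 ≤ 16 * D ^ 2 := by nlinarith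
      have f2 := one_le_mul_of_one_le_of_one_le f1 hna
      linarith
    · have f1 : (N : ℝ) ^ a ≤ (4 * n * e ^ 2) ^ a := Real.rpow_le_rpow hN0.le hNe ha0.le
      have f2 : (4 * n * e ^ 2) ^ a = 4 ^ a * (n : ℝ) ^ a * (e ^ 2) ^ a := by
        rw [Real.mul_rpow (by positivity) (by positivity), Real.mul_rpow (by norm_num) hn0.le]
      have f3 : (4 : ℝ) ^ a ≤ 4 := by
        calc (4 : ℝ) ^ a ≤ 4 ^ (1 : ℝ) :=
              Real.rpow_le_rpow_of_exponent_le (by norm_num) (by linarith)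
          _ = 4 := Real.rpow_one 4
      have f4 : (e ^ 2) ^ a ≤ Real.sqrt e := by
        have g1 : (e ^ 2) ^ a ≤ (e ^ 2) ^ (1 / 4 : ℝ) :=
          Real.rpow_le_rpow_of_exponent_le (by nlinarith) ha1
        have g2 : (e ^ 2) ^ (1 / 4 : ℝ) = Real.sqrt e := by
          rw [Real.sqrt_eq_rpow, ← Real.rpow_natCast e 2, ← Real.rpow_mul he.le]
          norm_num
        rw [← g2]
        exact g1
      have hs0 : 0 < Real.sqrt e := Real.sqrt_pos.2 he
      have hss : Real.sqrt e ^ 2 = e := Real.sq_sqrt he.le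
      have hna0 : 0 < (n : ℝ) ^ a := by positivity
      have f5 : e ≤ D * (4 * (n : ℝ) ^ a * Real.sqrt e) := by
        refine h1.trans (mul_le_mul_of_nonneg_left ?_ hD0.le)
        rw [f2] at f1
        refine f1.trans ?_
        refine mul_le_mul (mul_le_mul_of_nonneg_right f3 hna0.le) f4 (by positivity) (by positivity)
      have f6 : Real.sqrt e ≤ 4 * D * (n : ℝ) ^ a := by
        have g1 : Real.sqrt e * Real.sqrt e ≤ (4 * D * (n : ℝ) ^ a) * Real.sqrt e := by
          have : Real.sqrt e * Real.sqrt e = e := by rw [← sq]; exact hss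
          rw [this]
          linarith
        exact le_of_mul_le_mul_right g1 hs0
      have f7 : e ≤ (4 * D * (n : ℝ) ^ a) ^ 2 := by
        rw [← hss]
        exact pow_le_pow_left₀ hs0.le f6 2
      have f8 : (4 * D * (n : ℝ) ^ a) ^ 2 = 16 * D ^ 2 * (n : ℝ) ^ (2 * a) := by
        have : ((n : ℝ) ^ a) ^ 2 = (n : ℝ) ^ (2 * a) := by
          rw [← Real.rpow_natCast ((n : ℝ) ^ a) 2, ← Real.rpow_mul hn0.le]
          push_cast
          ring_nf
        rw [mul_pow, mul_pow, this]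
        norm_num
      rw [← f8]
      exact f7
  have h3 : (n : ℝ) ^ (2 * a) ≤ ((n : ℝ) + 1) ^ (4 * C * c) := by
    have : 2 * a = 4 * C * c := by rw [ha]; ring
    rw [this]
    exact Real.rpow_le_rpow hn0.le (by linarith) (by positivity)
  unfold pg
  have h4 : 0 < 16 * D ^ 2 := by positivity
  have h5 := mul_le_mul_of_nonneg_left h3 h4.le
  linarith

end Pool.Agent.W_7d29a1_WP
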