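import Pool.Agent.W_7d29a1_WP.DefsWP
import Pool.Agent.W_7d29a1_SW.PbP78

/-!
Theorem W with a power, leaf B4: the variance at a good point (helper83, after helper78).
-/

namespace Pool.Agent.W_7d29a1_WP

open MeasureTheory ProbabilityTheory Filter Topology Pool.Agent.W_MP_7d29a1_pr
  Pool.Agent.W_7d29a1_h46 Pool.Agent.W_7d29a1_h46u Pool.Agent.W_7d29a1_D2.B35
  Pool.Agent.W_7d29a1_Q29 Pool.Agent.W_7d29a1_R34 Pool.Agent.W_7d29a1_SP Pool.Agent.W_7d29a1_SD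
  Pool.Agent.W_7d29a1_SW Pool.Agent.W_7d29a1_AM

lemma pg_mono83 {Q Q' c c' : ℝ} (hQ : 0 ≤ Q) (hQQ : Q ≤ Q') (hcc : c ≤ c') (t : ℕ) :
    pg Q c t ≤ pg Q' c' t := by
  unfold pg
  have ht : (0 : ℝ) ≤ t := Nat.cast_nonneg t
  have h1 : ((t : ℝ) + 1) ^ c ≤ ((t : ℝ) + 1) ^ c' :=
    Real.rpow_le_rpow_of_exponent_le (by linarith) hcc
  exact mul_le_mul hQQ h1 (by positivity) (hQ.trans hQQ)

lemma pg_mono_n83 {Q c : ℝ} (hQ : 0 ≤ Q) (hc : 0 ≤ c) : Monotone (pg Q c) := by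
  intro m n hmn
  unfold pg
  have h1 : (m : ℝ) ≤ n := by exact_mod_cast hmn
  exact mul_le_mul_of_nonneg_left (Real.rpow_le_rpow (by positivity) (by linarith) hc) hQ

lemma one_le_pg83 {Q c : ℝ} (hQ : 1 ≤ Q) (hc : 0 ≤ c) (n : ℕ) : 1 ≤ pg Q c n := by
  unfold pg
  have hn : (0 : ℝ) ≤ n := Nat.cast_nonneg n
  exact one_le_mul_of_one_le_of_one_le hQ (Real.one_le_rpow (by linarith) hc)

/-- The final numbers. -/
lemma fin83 {C₂ C₃ Q Q₁ c : ℝ} (hC₂ : 1 ≤ C₂) (hC₃ : 1 ≤ C₃) (hQ : 1 ≤ Q) (hQ₁ : 1 ≤ Q₁)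
    (hc : 0 < c) (hc1 : c ≤ 1) {m : ℕ} (hm : 1 ≤ m) :
    C₃ * (1 + Real.log m) ^ 2 * (1 + pg Q c (2 * m) + pg Q₁ (C₂ * c) (2 * m) ^ 2) ≤
      pg (C₃ * (1 + 1 / c) ^ 2 * (1 + 2 * Q + Q₁ ^ 2 * ((2 : ℝ) ^ C₂) ^ 2)) ((2 * C₂ + 2) * c) m := by
  obtain ⟨x, hx⟩ : ∃ x : ℝ, x = (m : ℝ) + 1 := ⟨_, rfl⟩
  have hmR : (1 : ℝ) ≤ m := by exact_mod_cast hm
  have hx1 : 1 ≤ x := by rw [hx]; linarith
  have hx0 : 0 < x := by linarith
  have h2m : (((2 * m : ℕ) : ℝ) + 1) ≤ 2 * x := by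
    rw [hx]
    push_cast
    linarith
  have h2m0 : (0 : ℝ) ≤ (((2 * m : ℕ) : ℝ) + 1) := by positivity
  have hC2c : 0 < C₂ * c := by positivity
  -- the logarithm
  have e1 : 1 + Real.log m ≤ (1 + 1 / c) * x ^ c := by
    have f1 : Real.log (m : ℝ) ≤ Real.log x := Real.log_le_log (by linarith) (by rw [hx]; linarith)
    have f2 : Real.log x ≤ x ^ c / c := Real.log_le_rpow_div hx0.le hc
    have f3 : 1 ≤ x ^ c := Real.one_le_rpow hx1 hc.le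
    have f4 : (1 + 1 / c) * x ^ c = x ^ c + x ^ c / c := by ring
    rw [f4]
    linarith
  have hl0 : 0 ≤ 1 + Real.log (m : ℝ) := by
    have := Real.log_nonneg hmR
    linarith
  have e2 : (1 + Real.log m) ^ 2 ≤ (1 + 1 / c) ^ 2 * x ^ (2 * c) := by
    have f1 := pow_le_pow_left₀ hl0 e1 2
    have f2 : ((1 + 1 / c) * x ^ c) ^ 2 = (1 + 1 / c) ^ 2 * x ^ (2 * c) := by
      rw [mul_pow, ← Real.rpow_natCast (x ^ c) 2, ← Real.rpow_mul hx0.le]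
      push_cast
      ring_nf
    rwa [f2] at f1
  -- the powers
  have hX : 1 ≤ x ^ (2 * C₂ * c) := Real.one_le_rpow hx1 (by positivity)
  have e3 : pg Q c (2 * m) ≤ 2 * Q * x ^ (2 * C₂ * c) := by
    unfold pg
    have f1 : (((2 * m : ℕ) : ℝ) + 1) ^ c ≤ (2 * x) ^ c := Real.rpow_le_rpow h2m0 h2m hc.le
    have f2 : (2 * x) ^ c = 2 ^ c * x ^ c := Real.mul_rpow (by norm_num) hx0.le
    have f3 : (2 : ℝ) ^ c ≤ 2 := by
      calc (2 : ℝ) ^ c ≤ 2 ^ (1 : ℝ) := Real.rpow_le_rpow_of_exponent_le (by norm_num) hc1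
        _ = 2 := Real.rpow_one 2
    have f4 : x ^ c ≤ x ^ (2 * C₂ * c) :=
      Real.rpow_le_rpow_of_exponent_le hx1 (by nlinarith)
    calc Q * (((2 * m : ℕ) : ℝ) + 1) ^ c ≤ Q * (2 * x ^ (2 * C₂ * c)) := by
          refine mul_le_mul_of_nonneg_left ?_ (by linarith)
          rw [f2] at f1
          exact f1.trans (mul_le_mul f3 f4 (by positivity) (by norm_num))
      _ = 2 * Q * x ^ (2 * C₂ * c) := by ring
  have e4 : pg Q₁ (C₂ * c) (2 * m) ^ 2 ≤ Q₁ ^ 2 * ((2 : ℝ) ^ C₂) ^ 2 * x ^ (2 * C₂ * c) := by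
    have f1 : pg Q₁ (C₂ * c) (2 * m) ≤ Q₁ * ((2 : ℝ) ^ C₂ * x ^ (C₂ * c)) := by
      unfold pg
      refine mul_le_mul_of_nonneg_left ?_ (by linarith)
      have g1 : (((2 * m : ℕ) : ℝ) + 1) ^ (C₂ * c) ≤ (2 * x) ^ (C₂ * c) :=
        Real.rpow_le_rpow h2m0 h2m hC2c.le
      have g2 : (2 * x) ^ (C₂ * c) = 2 ^ (C₂ * c) * x ^ (C₂ * c) :=
        Real.mul_rpow (by norm_num) hx0.le
      have g3 : (2 : ℝ) ^ (C₂ * c) ≤ 2 ^ C₂ :=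
        Real.rpow_le_rpow_of_exponent_le (by norm_num) (by nlinarith)
      rw [g2] at g1
      exact g1.trans (mul_le_mul_of_nonneg_right g3 (by positivity))
    have f2 : 0 ≤ pg Q₁ (C₂ * c) (2 * m) := by unfold pg; positivity
    have f3 := pow_le_pow_left₀ f2 f1 2
    have f4 : (Q₁ * ((2 : ℝ) ^ C₂ * x ^ (C₂ * c))) ^ 2 =
        Q₁ ^ 2 * ((2 : ℝ) ^ C₂) ^ 2 * x ^ (2 * C₂ * c) := by
      have g1 : (x ^ (C₂ * c)) ^ 2 = x ^ (2 * C₂ * c) := by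
        rw [← Real.rpow_natCast (x ^ (C₂ * c)) 2, ← Real.rpow_mul hx0.le]
        push_cast
        ring_nf
      rw [mul_pow, mul_pow, g1]
      ring
    rwa [f4] at f3
  have e5 : 1 + pg Q c (2 * m) + pg Q₁ (C₂ * c) (2 * m) ^ 2 ≤
      (1 + 2 * Q + Q₁ ^ 2 * ((2 : ℝ) ^ C₂) ^ 2) * x ^ (2 * C₂ * c) := by
    have : (1 + 2 * Q + Q₁ ^ 2 * ((2 : ℝ) ^ C₂) ^ 2) * x ^ (2 * C₂ * c) = x ^ (2 * C₂ * c) +
      2 * Q * x ^ (2 * C₂ * c) + Q₁ ^ 2 * ((2 : ℝ) ^ C₂) ^ 2 * x ^ (2 * C₂ * c) := by ring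
    rw [this]
    linarith
  have hpg0 : 0 ≤ 1 + pg Q c (2 * m) + pg Q₁ (C₂ * c) (2 * m) ^ 2 := by
    have : 0 ≤ pg Q c (2 * m) := by unfold pg; positivity
    positivity
  have e6 : C₃ * (1 + Real.log m) ^ 2 ≤ C₃ * ((1 + 1 / c) ^ 2 * x ^ (2 * c)) :=
    mul_le_mul_of_nonneg_left e2 (by linarith)
  refine (mul_le_mul e6 e5 hpg0 (by positivity)).trans (le_of_eq ?_)
  unfold pg
  rw [← hx]
  have e7 : x ^ ((2 * C₂ + 2) * c) = x ^ (2 * c) * x ^ (2 * C₂ * c) := by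
    rw [← Real.rpow_add hx0]
    ring_nf
  rw [e7]
  ring

/-- Leaf B4. -/
theorem pbPK83 {ρ : Measure ℝ} [IsProbabilityMeasure ρ] {β : ℝ} (hB : BeK ρ β) (hN : NuK)
    (hV : VaW 2 ρ β) (hLoc : LocE 2 ρ β) : PbPK ρ β := by
  intro g hg
  obtain ⟨c₀, hc₀, hLoc'⟩ := hLoc g hg
  obtain ⟨θ, hθdef⟩ : ∃ θ, θ = min (c₀ / 4) (1 / 4000) := ⟨_, rfl⟩
  have hθ : 0 < θ := by
    rw [hθdef]
    exact lt_min (by linarith) (by norm_num)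
  have hθ1 : θ ≤ c₀ / 4 := by
    rw [hθdef]
    exact min_le_left _ _
  have hθ2 : θ ≤ 1 / 4000 := by
    rw [hθdef]
    exact min_le_right _ _
  obtain ⟨C₁, hC₁, hB'⟩ := hB c₀ θ hc₀ hθ hθ1 hθ2
  obtain ⟨C₂, c₂, hC₂, hc₂, hN'⟩ := hN C₁ hC₁
  obtain ⟨C₃, hC₃, hV'⟩ := hV c₀ hc₀
  refine ⟨θ, 2 * C₂ + 2, min c₂ 1, hθ, hθ2, by linarith, lt_min hc₂ one_pos,
    fun h v Q c R hQ hc hcm hP => ?_⟩
  have hc2 : c ≤ c₂ := hcm.trans (min_le_left _ _)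
  have hc1 : c ≤ 1 := hcm.trans (min_le_right _ _)
  have hloc : Loc1 ρ β h c₀ := hLoc' h hP.gap
  have hR : 1 ≤ C₁ * (1 + |R|) := by
    have := abs_nonneg R
    nlinarith
  obtain ⟨Q₁, hQ₁, hN''⟩ := hN' c Q (C₁ * (1 + |R|)) hc hc2 hQ hR
  -- the nonrandom fluctuation
  have hE : ∀ n k : ℕ, 1 ≤ n → k ≤ n → En ρ β h k ≤ pg Q₁ (C₂ * c) n := by
    intro n k hn hk
    by_cases h1 : 1 ≤ En ρ β h k
    · obtain ⟨N, e, hN1, he, h2, h3, h4⟩ := hB' h v g R (pg Q c) hloc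
        (pg_mono_n83 (by linarith) hc.le) (one_le_pg83 hQ hc.le) hP n k hk h1
      exact h2.trans (hN'' n N e hn hN1 he h3 h4)
    · rw [not_le] at h1
      have h2 := one_le_pg83 hQ₁ (show 0 ≤ C₂ * c by positivity) n
      linarith
  obtain ⟨Q', hQ'⟩ : ∃ Q', Q' = C₃ * (1 + 1 / c) ^ 2 *
    (1 + 2 * Q + Q₁ ^ 2 * ((2 : ℝ) ^ C₂) ^ 2) := ⟨_, rfl⟩
  have hQQ' : Q ≤ Q' := by
    have k1 : 1 ≤ (1 + 1 / c) ^ 2 := one_le_pow₀ (by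
      have : 0 < 1 / c := by positivity
      linarith)
    have k2 : 1 ≤ C₃ * (1 + 1 / c) ^ 2 := one_le_mul_of_one_le_of_one_le hC₃ k1
    have k3 : Q ≤ 1 + 2 * Q + Q₁ ^ 2 * ((2 : ℝ) ^ C₂) ^ 2 := by
      have : 0 ≤ Q₁ ^ 2 * ((2 : ℝ) ^ C₂) ^ 2 := by positivity
      linarith
    rw [hQ']
    calc Q = 1 * Q := (one_mul Q).symm
      _ ≤ _ := mul_le_mul k2 k3 (by linarith) (by linarith)
  have hcc : c ≤ (2 * C₂ + 2) * c := by nlinarith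
  refine ⟨Q', hQ.trans hQQ', hP.gap, fun n t ht => ?_, fun m => ?_, hP.rate⟩
  · refine (B78.loc_mono78 β h v ht ?_).trans (hP.loc n t ht)
    exact mul_le_mul_of_nonneg_right (pg_mono83 (by linarith) hQQ' hcc n) (Real.sqrt_nonneg _)
  · rcases Nat.eq_zero_or_pos m with hm | hm
    · rw [hm, B78.Va_zero78]
      unfold pg
      have : 0 ≤ Q' := by linarith
      positivity
    · have h1 := hV' h hloc θ hθ hθ1 m (pg Q c (2 * m)) (pg Q₁ (C₂ * c) (2 * m)) hm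
        (by have := one_le_pg83 hQ hc.le (2 * m); linarith)
        (fun L hL => (hP.bulk L).trans (pg_mono_n83 (by linarith) hc.le hL))
        (fun i hi => hE (2 * m) i (by omega) hi)
      refine h1.trans ?_
      rw [hQ']
      exact fin83 hC₂ hC₃ hQ hQ₁ hc hc1 hm

end Pool.Agent.W_7d29a1_WP
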