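import Pool.Agent.W_7d29a1_WP.DefsWP
import Pool.Agent.W_7d29a1_WP.RsG80

/-!
Theorem WP, leaf C2 (helper80).
-/

set_option autoImplicit false

namespace Pool.Agent.W_7d29a1_WP

open MeasureTheory ProbabilityTheory Filter Topology Pool.Agent.W_MP_7d29a1_pr
  Pool.Agent.W_7d29a1_h46 Pool.Agent.W_7d29a1_h46u Pool.Agent.W_7d29a1_D2.B35
  Pool.Agent.W_7d29a1_Q29 Pool.Agent.W_7d29a1_SD

/-- **Leaf C2.** -/
theorem rsK80 {d : ℕ} {ρ : Measure ℝ} [IsProbabilityMeasure ρ] (hd : 0 < d) (β : ℝ) :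
    RsK d ρ β := fun h v G θ C s₀ n₀ hθ _ hC hs₀ H HP =>
  rsG80 hd h v G θ C s₀ n₀ hθ hC hs₀ H HP

end Pool.Agent.W_7d29a1_WP
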