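import Pool.Agent.W_7d29a1_WP.DefsWP
import Pool.Agent.W_7d29a1_SD.SubG20

/-!
Theorem W with a power, leaf C1: the velocity is a slope of the free energy.
-/

namespace Pool.Agent.W_7d29a1_WP

open MeasureTheory ProbabilityTheory Filter Topology Pool.Agent.W_MP_7d29a1_pr
  Pool.Agent.W_7d29a1_h46 Pool.Agent.W_7d29a1_h46u Pool.Agent.W_7d29a1_SD

variable {d : ℕ} {ρ : Measure ℝ} [IsProbabilityMeasure ρ] {β : ℝ}

/-- `(n + 1) ^ c / n` tends to zero. -/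
theorem limK20 {c : ℝ} (hc : c ≤ 1 / 10) :
    Tendsto (fun n : ℕ => pg 1 c n / (n : ℝ)) atTop (𝓝 0) := by
  have t1 : Tendsto (fun n : ℕ => 2 * ((n : ℝ) ^ (-(9 / 10) : ℝ))) atTop (𝓝 (2 * 0)) :=
    ((tendsto_rpow_neg_atTop (by norm_num : (0 : ℝ) < 9 / 10)).comp
      tendsto_natCast_atTop_atTop).const_mul 2
  rw [mul_zero] at t1
  refine tendsto_of_tendsto_of_tendsto_of_le_of_le' tendsto_const_nhds t1
    (Eventually.of_forall fun n => ?_) ((eventually_ge_atTop 1).mono fun n hn => ?_)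
  · show 0 ≤ pg 1 c n / (n : ℝ)
    unfold pg
    positivity
  · have hn' : (1 : ℝ) ≤ n := by exact_mod_cast hn
    have h0 : (0 : ℝ) < n := by linarith
    show pg 1 c n / (n : ℝ) ≤ 2 * (n : ℝ) ^ (-(9 / 10) : ℝ)
    unfold pg
    have h1 : ((n : ℝ) + 1) ^ c ≤ ((n : ℝ) + 1) ^ (1 / 10 : ℝ) :=
      Real.rpow_le_rpow_of_exponent_le (by linarith) hc
    have h2 : ((n : ℝ) + 1) ^ (1 / 10 : ℝ) ≤ (2 * n) ^ (1 / 10 : ℝ) :=
      Real.rpow_le_rpow (by linarith) (by linarith) (by norm_num)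
    have h3 : (2 * (n : ℝ)) ^ (1 / 10 : ℝ) = 2 ^ (1 / 10 : ℝ) * (n : ℝ) ^ (1 / 10 : ℝ) :=
      Real.mul_rpow (by norm_num) h0.le
    have h4 : (2 : ℝ) ^ (1 / 10 : ℝ) ≤ 2 := by
      have := Real.rpow_le_rpow_of_exponent_le (one_le_two : (1 : ℝ) ≤ 2)
        (by norm_num : (1 / 10 : ℝ) ≤ 1)
      rwa [Real.rpow_one] at this
    have h5 : (n : ℝ) ^ (-(9 / 10) : ℝ) = (n : ℝ) ^ (1 / 10 : ℝ) / n := by
      rw [← Real.rpow_sub_one h0.ne']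
      norm_num
    rw [h5, one_mul, mul_div_assoc', div_le_div_iff_of_pos_right h0]
    have h6 : 0 ≤ (n : ℝ) ^ (1 / 10 : ℝ) := Real.rpow_nonneg h0.le _
    calc ((n : ℝ) + 1) ^ c ≤ 2 ^ (1 / 10 : ℝ) * (n : ℝ) ^ (1 / 10 : ℝ) := by
          rw [← h3]; exact h1.trans h2
      _ ≤ 2 * (n : ℝ) ^ (1 / 10 : ℝ) := mul_le_mul_of_nonneg_right h4 h6

/-- Leaf C1. -/
theorem slK20 (hd : 0 < d) (hρ : EM ρ) : SlK d ρ β := by
  intro h v c n₀ hc hW k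
  have hr : Tendsto (fun n : ℕ => ((n : ℝ) ^ (3 / 4 : ℝ)) / (n : ℝ)) atTop (𝓝 0) := by
    have t1 : Tendsto (fun n : ℕ => ((n : ℝ) ^ (-(1 / 4) : ℝ))) atTop (𝓝 0) :=
      (tendsto_rpow_neg_atTop (by norm_num : (0 : ℝ) < 1 / 4)).comp tendsto_natCast_atTop_atTop
    refine t1.congr' ((eventually_ge_atTop 1).mono fun n hn => ?_)
    have hn' : (0 : ℝ) < n := by exact_mod_cast hn
    show (n : ℝ) ^ (-(1 / 4) : ℝ) = (n : ℝ) ^ (3 / 4 : ℝ) / (n : ℝ)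
    rw [← Real.rpow_sub_one hn'.ne']
    norm_num
  refine coreG20 hd hρ h v k (by norm_num : (0 : ℝ) < 1 / 2) (by norm_num : (0 : ℝ) < 1 / 2)
    (fun n : ℕ => (n : ℝ) ^ (3 / 4 : ℝ)) hr ?_
  have h1 : ∀ᶠ n : ℕ in atTop, pg 1 c n / (n : ℝ) < 1 / 4 :=
    (limK20 hc).eventually (gt_mem_nhds (by norm_num))
  filter_upwards [h1, eventually_ge_atTop n₀, eventually_ge_atTop 1] with n hn1 hn2 hn3
  have hn' : (0 : ℝ) < n := by exact_mod_cast hn3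
  have h2 := hW n hn2 ((n : ℝ) ^ (3 / 4 : ℝ)) (Real.rpow_pos_of_pos hn' _)
  have h3 := goodG20 (ρ := ρ) (β := β) h v n ((n : ℝ) ^ (3 / 4 : ℝ))
  have h4 : ((n : ℝ) ^ (3 / 4 : ℝ)) ^ 4 = (n : ℝ) ^ 2 * n := by
    rw [← Real.rpow_natCast, ← Real.rpow_mul hn'.le]
    norm_num
    rw [← pow_succ]
  rw [h4, mul_assoc] at h2
  have h5 := le_of_mul_le_mul_left h2 (by positivity)
  rw [div_lt_iff₀ hn'] at hn1
  have h6 : (n : ℝ) * ∫ η, (1 - PolT β h η (tube d n v ((n : ℝ) ^ (3 / 4 : ℝ)))) ∂(law d ρ) <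
      n * (1 / 4) := lt_of_le_of_lt h5 (by linarith)
  have h7 := lt_of_mul_lt_mul_left h6 hn'.le
  linarith

end Pool.Agent.W_7d29a1_WP
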