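import Pool.Agent.W_7d29a1_WP.Main80
import Pool.Agent.W_7d29a1_WP.SlK20
import Pool.Agent.W_7d29a1_WP.RsK80
import Pool.Agent.W_7d29a1_WP.BkK66
import Pool.Agent.W_7d29a1_WP.RtK74
import Pool.Agent.W_7d29a1_WP.LcK98
import Pool.Agent.W_7d29a1_WP.BeK6
import Pool.Agent.W_7d29a1_WP.NuK83
import Pool.Agent.W_7d29a1_WP.PbPK83
import Pool.Agent.W_7d29a1_SP.SeqP69
import Pool.Agent.W_7d29a1_SW.SaW35
import Pool.Agent.W_7d29a1_SW.NgW48
import Pool.Agent.W_7d29a1_SW.VaW74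
import Pool.Agent.W_7d29a1_SW.LkB96
import Pool.Agent.W_7d29a1_SW.LuD93
import Pool.Agent.W_7d29a1_SW.Vb83
import Pool.Agent.W_7d29a1_AM.FinU73
import Pool.Agent.W_7d29a1_Q29.Csy42

/-!
Theorem WP (theorem W with a power): from the point theorem `PointPL`, every law with all
exponential moments.
-/

set_option autoImplicit false

namespace Pool.Agent.W_7d29a1_WP

open MeasureTheory ProbabilityTheory Filter Topology Pool.Agent.W_MP_7d29a1_pr
  Pool.Agent.W_7d29a1_h46 Pool.Agent.W_7d29a1_h46u Pool.Agent.W_7d29a1_D2.B35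
  Pool.Agent.W_7d29a1_Q29 Pool.Agent.W_7d29a1_R34 Pool.Agent.W_7d29a1_SP Pool.Agent.W_7d29a1_SD
  Pool.Agent.W_7d29a1_SW Pool.Agent.W_7d29a1_AM

variable {ρ : Measure ℝ} [IsProbabilityMeasure ρ]

/-- **THEOREM WP** from the point theorem, every law. -/
theorem mainWPof83 (hρ : EM ρ) (hnc : ∀ c : ℝ, ρ {c} ≠ 1) {β : ℝ} (hβ : 0 < β)
    (hPt : PointPL ρ β) : MainWP ρ β := by
  have hLoc : LocE 2 ρ β := Csy42.loc42 (by norm_num) hρ β
  have hB : LkB ρ β := lkB96 (luD93 (by norm_num) hρ β) (npW83 (by norm_num) hρ hnc hβ)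
  have hSa : SaW 2 ρ β := saW35 (by norm_num) hρ β
  have hNg : NgW 2 ρ β := ngw48 (by norm_num) hρ β
  have hVa : VaW 2 ρ β := vaW74 (by norm_num) hρ hSa hNg
  have hBe : BeK ρ β := beK6 hρ seqP69 (ampU73 (by norm_num) hρ hnc hβ) hSa hVa hB
  have hPb : PbPK ρ β := pbPK83 hBe nuK83 hVa hLoc
  exact mainWP80 hρ (slK20 (by norm_num) hρ) (rsK80 (by norm_num) β)
    (bkK66 (by norm_num) hρ β) (rtK74 (by norm_num) hρ β) (lcK98 (by norm_num) β) hPb hPt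

end Pool.Agent.W_7d29a1_WP
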