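import Pool.Agent.W_7d29a1_WP.FinX98
import Pool.Agent.W_7d29a1_WP.FinWP83
import Pool.Agent.W_7d29a1_WP.TrWP52

/-!
Theorems WP and W0 with a power in the letters of the problem, every law.
-/

namespace Pool.Agent.W_7d29a1_WP

open MeasureTheory ProbabilityTheory Filter Topology Pool.Agent.W_MP_7d29a1_pr
  Pool.Agent.W_7d29a1_h46 Pool.Agent.W_7d29a1_h46u Pool.Agent.W_7d29a1_D2.B35
  Pool.Agent.W_7d29a1_Q29

/-- **THEOREM WP**, every law. -/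
theorem mainWPAll98 {ρ : Measure ℝ} [IsProbabilityMeasure ρ] (hρ : EM ρ)
    (hnc : ∀ c : ℝ, ρ {c} ≠ 1) {β : ℝ} (hβ : 0 < β) : MainWP ρ β :=
  mainWPof83 hρ hnc hβ (pointAll98 hρ hnc hβ)

variable {Ω : Type*} [MeasurableSpace Ω] {μ : Measure Ω} [IsProbabilityMeasure μ] {d : ℕ}
  {ρ : Measure ℝ} [IsProbabilityMeasure ρ] {ω : ℕ × Site d → Ω → ℝ} {β : ℝ}

/-- In two transversal dimensions, at every tilt and around every direction: the variance is at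
least `n ^ c` or the polymer leaves the tube of radius `n ^ (1 / 2 + c)`, infinitely often. -/
theorem clauseW0P98 (hω : IID μ ρ ω) (hρ : EM ρ) (hnc : ∀ c : ℝ, ρ {c} ≠ 1) (hβ : 0 < β)
    (hd : d = 2) : ∀ h : Vec d, ∃ c : ℝ, 0 < c ∧ ∀ v : Vec d, ∃ ε : ℝ,
      0 < ε ∧ ∃ᶠ n : ℕ in atTop, (n : ℝ) ^ c ≤ Var[Lit29.X ω β h n; μ] ∨
        ε ≤ Lit29.EP μ ω β h (tube d n v ((n : ℝ) ^ (1 / 2 + c)))ᶜ :=
  trW0P52 hω hρ hnc hβ hd (mainAll98 hρ hnc hβ)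

/-- In two transversal dimensions, in almost every direction and at every tilt: the polymer spreads
faster than the square root of the length, with a power. -/
theorem clauseWP98 (hω : IID μ ρ ω) (hρ : EM ρ) (hnc : ∀ c : ℝ, ρ {c} ≠ 1) (hβ : 0 < β)
    (hd : d = 2) : ∀ᵐ v : Vec d, ∀ h : Vec d, ∃ c : ℝ, 0 < c ∧
      ∃ᶠ n : ℕ in atTop, ∃ r : ℝ, 0 < r ∧
        (n : ℝ) ^ (2 + c) < r ^ 4 * Lit29.EP μ ω β h (tube d n v r)ᶜ :=
  trWP52 hω hρ hnc hβ hd (mainWPAll98 hρ hnc hβ)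

end Pool.Agent.W_7d29a1_WP
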