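import Pool.Agent.W_7d29a1_WP.LowW15
import Pool.Agent.W_7d29a1_PL.LkQ95
import Pool.Agent.W_7d29a1_PL.BetQ26
import Pool.Agent.W_7d29a1_AM.FinU73
import Pool.Agent.W_7d29a1_SW.LuD93
import Pool.Agent.W_7d29a1_SW.Vb83

/-!
The leaves LOWQ, BETQ and their window forms, closed, for every law (helper15).
-/

namespace Pool.Agent.W_7d29a1_WP

open MeasureTheory ProbabilityTheory Filter Topology Pool.Agent.W_MP_7d29a1_pr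
  Pool.Agent.W_7d29a1_h46 Pool.Agent.W_7d29a1_h46u Pool.Agent.W_7d29a1_D2.B35
  Pool.Agent.W_7d29a1_Q29 Pool.Agent.W_7d29a1_R34 Pool.Agent.W_7d29a1_SP Pool.Agent.W_7d29a1_SD
  Pool.Agent.W_7d29a1_SW Pool.Agent.W_7d29a1_AM Pool.Agent.W_7d29a1_PL

variable {ρ : Measure ℝ} [IsProbabilityMeasure ρ]

/-- Numbers of BETW. -/
lemma numW15 {Q c : ℝ} (hQ : 1 ≤ Q) (hc : 0 < c) (hc1 : c ≤ 1 / 32) :
    ∃ e₀ : ℝ, ∀ (n N : ℕ) (e : ℝ), 1 ≤ n → 1 ≤ N → e₀ ≤ e → (n : ℝ) ^ (8 * c) ≤ 2 * e →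
      (N : ℝ) ≤ n * (2 * e) ^ 2 → pg Q c (2 * N) ^ 4 ≤ e := by
  refine ⟨(4 * (2 * Q) ^ 4) ^ 4, fun n N e hn hN he h1 h2 => ?_⟩
  refine le_trans ?_ (kp_pow26 (Q := 2 * Q) (by linarith) hc hc1 hn he h1 h2)
  have hN1 : (1 : ℝ) ≤ N := by exact_mod_cast hN
  have h3 : pg Q c (2 * N) ≤ kp (2 * Q) c (2 * N) := by
    unfold pg kp
    have e1 : ((2 * N : ℕ) : ℝ) + 1 ≤ 2 * ((2 * N : ℕ) : ℝ) := by
      push_cast
      linarith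
    have e2 : (((2 * N : ℕ) : ℝ) + 1) ^ c ≤ (2 * ((2 * N : ℕ) : ℝ)) ^ c :=
      Real.rpow_le_rpow (by positivity) e1 hc.le
    rw [Real.mul_rpow (by norm_num) (by positivity)] at e2
    have e3 : (2 : ℝ) ^ c ≤ 2 := by
      have := Real.rpow_le_rpow_of_exponent_le (show (1 : ℝ) ≤ 2 by norm_num)
        (show c ≤ 1 by linarith)
      rwa [Real.rpow_one] at this
    have e4 : (0 : ℝ) ≤ ((2 * N : ℕ) : ℝ) ^ c := by positivity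
    calc Q * (((2 * N : ℕ) : ℝ) + 1) ^ c ≤ Q * (2 * ((2 * N : ℕ) : ℝ) ^ c) :=
          mul_le_mul_of_nonneg_left (e2.trans (mul_le_mul_of_nonneg_right e3 e4)) (by linarith)
      _ = 2 * Q * ((2 * N : ℕ) : ℝ) ^ c := by ring
  have h4 : 0 ≤ pg Q c (2 * N) := by
    have := one_le_pg15 hQ hc (2 * N)
    linarith
  exact pow_le_pow_left₀ h4 h3 4

/-- **BETW.** -/
theorem betW15 (hρ : EM ρ) {β : ℝ} (hS : SeqP) (hB : LkB ρ β) (hV : VbV 2 ρ β) : BetW ρ β := by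
  intro g hg
  obtain ⟨c₂, hc₂, hc₂1, hL'⟩ := lkW15 hB hV
  refine ⟨1 / 32, by norm_num, fun h v Q c R hQ hc hcc hP => ?_⟩
  have hYt : Tendsto (fun n : ℕ => (n : ℝ) ^ (8 * c)) atTop atTop :=
    (tendsto_rpow_atTop (show 0 < 8 * c by positivity)).comp tendsto_natCast_atTop_atTop
  exact betaK15 hρ hS hc₂ (pg_mono15 hQ hc) (one_le_pg15 hQ hc) le_rfl
    (hL' h v g R (pg Q c) (pg_mono15 hQ hc) (one_le_pg15 hQ hc) hP) hP.var hP.rate hYt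
    (numW15 hQ hc hcc)

/-- Luck with a power bound at the good points, every law. -/
theorem lkQC15 (hρ : EM ρ) (hnc : ∀ c : ℝ, ρ {c} ≠ 1) {β : ℝ} (hβ : 0 < β) :
    W_7d29a1_PL.LkQ95 ρ β :=
  lkQ95 hρ (luck93 hρ (leak34 hρ (box34 (by norm_num) hρ β) (tail13 (by norm_num) hρ β)))
    (npb98 (by norm_num) hρ hnc hβ)

/-- The gap inequality, every law. -/
theorem gapC15 (hρ : EM ρ) (hnc : ∀ c : ℝ, ρ {c} ≠ 1) {β : ℝ} (hβ : 0 < β) : GapQ 2 ρ β :=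
  gapQ72 (npf98 (by norm_num) hρ hnc hβ) (Csy42.loc42 (by norm_num) hρ β)
    (lowP85 (by norm_num) hρ β)

/-- GROW, every law. -/
theorem growC15 (hρ : EM ρ) (hnc : ∀ c : ℝ, ρ {c} ≠ 1) {β : ℝ} (hβ : 0 < β) : GrowU 2 ρ β :=
  growU78 (cnt79 (by norm_num) hρ β) (ampU73 (by norm_num) hρ hnc hβ)

/-- **LOWQ**, closed, every law. -/
theorem lowQC15 (hρ : EM ρ) (hnc : ∀ c : ℝ, ρ {c} ≠ 1) {β : ℝ} (hβ : 0 < β) : LowQ ρ β := by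
  refine lowQ15 hρ seqP69 (growC15 hρ hnc hβ) ?_ (Csy42.loc42 (by norm_num) hρ β)
    (gapC15 hρ hnc hβ)
  intro g M hg hM
  obtain ⟨c₂, hc₂, hc₂1, hL⟩ := lkQC15 hρ hnc hβ g M hg hM
  exact ⟨1 / 8, c₂, by norm_num, hc₂, hc₂1, hL⟩

/-- **BETQ**, closed, every law. -/
theorem betQC15 (hρ : EM ρ) (hnc : ∀ c : ℝ, ρ {c} ≠ 1) {β : ℝ} (hβ : 0 < β) : BetQ ρ β := by
  refine betQ26 hρ β seqP69 ?_
  intro g M hg hM
  obtain ⟨c₂, hc₂, hc₂1, hL⟩ := lkQC15 hρ hnc hβ g M hg hM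
  exact ⟨c₂, 1 / 8, hc₂, hc₂1, by norm_num, hL⟩

/-- Luck from the bulk variance, every law. -/
theorem lkBC15 (hρ : EM ρ) (hnc : ∀ c : ℝ, ρ {c} ≠ 1) {β : ℝ} (hβ : 0 < β) : LkB ρ β :=
  lkB96 (luD93 (by norm_num) hρ β) (npW83 (by norm_num) hρ hnc hβ)

/-- **LOWW**, closed, every law. -/
theorem lowWC15 (hρ : EM ρ) (hnc : ∀ c : ℝ, ρ {c} ≠ 1) {β : ℝ} (hβ : 0 < β) : LowW ρ β :=
  lowW15 hρ seqP69 (growC15 hρ hnc hβ) (lkBC15 hρ hnc hβ) (vbV83 (by norm_num) hρ β)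
    (Csy42.loc42 (by norm_num) hρ β) (gapC15 hρ hnc hβ)

/-- **BETW**, closed, every law. -/
theorem betWC15 (hρ : EM ρ) (hnc : ∀ c : ℝ, ρ {c} ≠ 1) {β : ℝ} (hβ : 0 < β) : BetW ρ β :=
  betW15 hρ seqP69 (lkBC15 hρ hnc hβ) (vbV83 (by norm_num) hρ β)

end Pool.Agent.W_7d29a1_WP
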