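import Pool.Agent.W_7d29a1_WP.PlugW98
import Pool.Agent.W_7d29a1_PL.Cor24
import Pool.Agent.W_7d29a1_PL.Use10
import Pool.Agent.W_7d29a1_PL.AddQ54
import Pool.Agent.W_7d29a1_PL.Cat76
import Pool.Agent.W_7d29a1_PL.Cost7
import Pool.Agent.W_7d29a1_PL.Chp35
import Pool.Agent.W_7d29a1_PL.Sel66
import Pool.Agent.W_7d29a1_SP.Amp84
import Pool.Agent.W_7d29a1_SP.Grow78

/-!
The core of the power law, the point theorem and Theorem W0 with a power when the law of the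
environment is the law of a convex function of a Gaussian.
-/

namespace Pool.Agent.W_7d29a1_WP

open MeasureTheory ProbabilityTheory Filter Topology Pool.Agent.W_MP_7d29a1_pr
  Pool.Agent.W_7d29a1_h46 Pool.Agent.W_7d29a1_h46u Pool.Agent.W_7d29a1_D2.B35
  Pool.Agent.W_7d29a1_Q29 Pool.Agent.W_7d29a1_R34 Pool.Agent.W_7d29a1_SP Pool.Agent.W_7d29a1_SD
  Pool.Agent.W_7d29a1_SW Pool.Agent.W_7d29a1_AM Pool.Agent.W_7d29a1_PL

variable {ρ : Measure ℝ} [IsProbabilityMeasure ρ]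

/-- **The core of the power law**, every dimension, laws of Gaussian type. -/
theorem corGC98 {d : ℕ} (hd : 0 < d) (hρ : EM ρ) {β : ℝ} (hβ : 0 < β) (hG : GC ρ) :
    CorP d ρ β := by
  have hCnt : CntP d ρ β := cnt79 hd hρ β
  have hA : AmpP d ρ β := amp84 hd hG hβ.le
  exact C24.cor24 hd hρ (Csy42.loc42 hd hρ β) (useP10 hd hρ β)
    (Ad54.addP54 hd (cat76 hd hρ β) (costP7 hd hρ hCnt hA)) (chp35 hd hρ (grow78 hCnt hA)) sel66

/-- There is no good point with a power bound. -/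
theorem pointGC98 (hρ : EM ρ) (hnc : ∀ c : ℝ, ρ {c} ≠ 1) {β : ℝ} (hβ : 0 < β) (hG : GC ρ) :
    PointPL ρ β :=
  pointC98 hρ hnc hβ (corGC98 (by norm_num) hρ hβ hG)

/-- **THEOREM W0 with a power**, laws of Gaussian type. -/
theorem mainGC98 (hρ : EM ρ) (hnc : ∀ c : ℝ, ρ {c} ≠ 1) {β : ℝ} (hβ : 0 < β) (hG : GC ρ) :
    MainW0P ρ β :=
  mainC98 hρ hnc hβ (corGC98 (by norm_num) hρ hβ hG)

end Pool.Agent.W_7d29a1_WP
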