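import Pool.Agent.W_7d29a1_WP.FinWP83
import Pool.Agent.W_7d29a1_WP.FinGC98

/-!
Theorem WP (theorem W with a power), laws of Gaussian type.
-/

set_option autoImplicit false

namespace Pool.Agent.W_7d29a1_WP

open MeasureTheory ProbabilityTheory Filter Topology Pool.Agent.W_MP_7d29a1_pr
  Pool.Agent.W_7d29a1_h46 Pool.Agent.W_7d29a1_h46u Pool.Agent.W_7d29a1_D2.B35
  Pool.Agent.W_7d29a1_Q29 Pool.Agent.W_7d29a1_R34 Pool.Agent.W_7d29a1_SP Pool.Agent.W_7d29a1_SD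
  Pool.Agent.W_7d29a1_SW Pool.Agent.W_7d29a1_AM Pool.Agent.W_7d29a1_PL

variable {ρ : Measure ℝ} [IsProbabilityMeasure ρ]

/-- **THEOREM WP**, laws of Gaussian type. -/
theorem mainWPG83 (hρ : EM ρ) (hnc : ∀ c : ℝ, ρ {c} ≠ 1) {β : ℝ} (hβ : 0 < β) (hG : GC ρ) :
    MainWP ρ β :=
  mainWPof83 hρ hnc hβ (pointGC98 hρ hnc hβ hG)

end Pool.Agent.W_7d29a1_WP
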