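import Pool.Agent.W_7d29a1_WP.DefsWP
import Pool.Agent.W_7d29a1_SW.PbP78

/-!
Leaf B4 with a power: the variance at a good point (helper78).
-/

set_option autoImplicit false

namespace Pool.Agent.W_7d29a1_WP

open MeasureTheory ProbabilityTheory Filter Topology Pool.Agent.W_MP_7d29a1_pr
  Pool.Agent.W_7d29a1_h46 Pool.Agent.W_7d29a1_h46u Pool.Agent.W_7d29a1_D2.B35
  Pool.Agent.W_7d29a1_Q29 Pool.Agent.W_7d29a1_R34 Pool.Agent.W_7d29a1_SP Pool.Agent.W_7d29a1_SD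
  Pool.Agent.W_7d29a1_SW Pool.Agent.W_7d29a1_AM

namespace K78

lemma pg_mono {Q Q' c c' : ℝ} (hQ : 0 ≤ Q) (hQQ : Q ≤ Q') (hcc : c ≤ c') (t : ℕ) :
    pg Q c t ≤ pg Q' c' t := by
  unfold pg
  have h0 : (0 : ℝ) ≤ t := Nat.cast_nonneg t
  exact mul_le_mul hQQ (Real.rpow_le_rpow_of_exponent_le (by linarith) hcc) (by positivity)
    (hQ.trans hQQ)

lemma pg_mono_t {Q c : ℝ} (hQ : 0 ≤ Q) (hc : 0 ≤ c) : Monotone (pg Q c) := by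
  intro s t hst
  unfold pg
  have h1 : (s : ℝ) ≤ t := by exact_mod_cast hst
  have h0 : (0 : ℝ) ≤ s := Nat.cast_nonneg s
  exact mul_le_mul_of_nonneg_left (Real.rpow_le_rpow (by linarith) (by linarith) hc) hQ

lemma one_le_pg {Q c : ℝ} (hQ : 1 ≤ Q) (hc : 0 ≤ c) (t : ℕ) : 1 ≤ pg Q c t := by
  unfold pg
  have h0 : (0 : ℝ) ≤ t := Nat.cast_nonneg t
  exact one_le_mul_of_one_le_of_one_le hQ (Real.one_le_rpow (by linarith) hc)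

/-- The square of the logarithm is absorbed. -/
lemma logsq {c : ℝ} (hc : 0 < c) {m : ℕ} (hm : 1 ≤ m) :
    (1 + Real.log m) ^ 2 ≤ (1 + 2 / c) ^ 2 * ((m : ℝ) + 1) ^ c := by
  have hm1 : (1 : ℝ) ≤ m := by exact_mod_cast hm
  have hm0 : (0 : ℝ) < (m : ℝ) + 1 := by linarith
  have h1 : Real.log m ≤ 2 / c * ((m : ℝ) + 1) ^ (c / 2) := by
    have h2 : Real.log m ≤ Real.log ((m : ℝ) + 1) := Real.log_le_log (by linarith) (by linarith)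
    have h3 := Real.log_le_rpow_div hm0.le (show 0 < c / 2 by linarith)
    have h4 : ((m : ℝ) + 1) ^ (c / 2) / (c / 2) = 2 / c * ((m : ℝ) + 1) ^ (c / 2) := by
      field_simp
    rw [h4] at h3
    linarith
  have h5 : 1 ≤ ((m : ℝ) + 1) ^ (c / 2) := Real.one_le_rpow (by linarith) (by linarith)
  have h6 : 1 + Real.log m ≤ (1 + 2 / c) * ((m : ℝ) + 1) ^ (c / 2) := by
    rw [add_mul, one_mul]
    linarith
  have h7 : 0 ≤ Real.log m := Real.log_nonneg hm1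
  have h8 : (((m : ℝ) + 1) ^ (c / 2)) ^ 2 = ((m : ℝ) + 1) ^ c := by
    rw [← Real.rpow_natCast, ← Real.rpow_mul hm0.le]
    congr 1
    push_cast
    ring
  calc (1 + Real.log m) ^ 2 ≤ ((1 + 2 / c) * ((m : ℝ) + 1) ^ (c / 2)) ^ 2 :=
        pow_le_pow_left₀ (by linarith) h6 2
    _ = _ := by rw [mul_pow, h8]

/-- The final numbers. -/
lemma fin {C₂ C₃ Q Q₁ c : ℝ} (hC₂ : 1 ≤ C₂) (hC₃ : 1 ≤ C₃) (hQ : 1 ≤ Q) (hQ₁ : 1 ≤ Q₁)
    (hc : 0 < c) (hc1 : c ≤ 1) {m : ℕ} (hm : 1 ≤ m) :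
    C₃ * (1 + Real.log m) ^ 2 * (1 + pg Q c (2 * m) + pg Q₁ (C₂ * c) (2 * m) ^ 2) ≤
      pg (C₃ * (1 + 2 / c) ^ 2 * (3 * (Q * Q₁ ^ 2)) * 2 ^ (2 * C₂)) ((2 * C₂ + 1) * c) m := by
  have hm1 : (1 : ℝ) ≤ m := by exact_mod_cast hm
  have hm0 : (0 : ℝ) < (m : ℝ) + 1 := by linarith
  obtain ⟨z, hz⟩ : ∃ z : ℝ, z = (m : ℝ) + 1 := ⟨_, rfl⟩
  have hz1 : 1 ≤ z := by linarith
  have hz0 : 0 < z := by linarith
  obtain ⟨w, hw⟩ : ∃ w : ℝ, w = ((2 * m : ℕ) : ℝ) + 1 := ⟨_, rfl⟩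
  have hw2 : w ≤ 2 * z := by
    rw [hw, hz]
    push_cast
    linarith
  have hw1 : 1 ≤ w := by
    rw [hw]
    push_cast
    linarith
  have hw0 : 0 < w := by linarith
  have h1 : w ^ (2 * C₂ * c) ≤ 2 ^ (2 * C₂) * z ^ (2 * C₂ * c) := by
    have h2 := Real.rpow_le_rpow hw0.le hw2 (show 0 ≤ 2 * C₂ * c by positivity)
    rw [Real.mul_rpow (by norm_num) hz0.le] at h2
    refine h2.trans (mul_le_mul_of_nonneg_right ?_ (by positivity))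
    exact Real.rpow_le_rpow_of_exponent_le (by norm_num) (by nlinarith)
  have h2 : w ^ c ≤ w ^ (2 * C₂ * c) := Real.rpow_le_rpow_of_exponent_le hw1 (by nlinarith)
  have h3 : 1 ≤ w ^ (2 * C₂ * c) := Real.one_le_rpow hw1 (by positivity)
  have hQ₁2 : 1 ≤ Q₁ ^ 2 := one_le_pow₀ hQ₁
  have hQQ : 1 ≤ Q * Q₁ ^ 2 := one_le_mul_of_one_le_of_one_le hQ hQ₁2
  have h4 : (Q₁ * w ^ (C₂ * c)) ^ 2 = Q₁ ^ 2 * w ^ (2 * C₂ * c) := by
    rw [mul_pow, ← Real.rpow_natCast (w ^ (C₂ * c)) 2, ← Real.rpow_mul hw0.le]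
    congr 2
    push_cast
    ring
  have hW0 : 0 ≤ w ^ (2 * C₂ * c) := by positivity
  have h5 : 1 + Q * w ^ c + (Q₁ * w ^ (C₂ * c)) ^ 2 ≤
      3 * (Q * Q₁ ^ 2) * (2 ^ (2 * C₂) * z ^ (2 * C₂ * c)) := by
    have k1 : 1 ≤ (Q * Q₁ ^ 2) * w ^ (2 * C₂ * c) := one_le_mul_of_one_le_of_one_le hQQ h3
    have k2 : Q * w ^ c ≤ (Q * Q₁ ^ 2) * w ^ (2 * C₂ * c) :=
      mul_le_mul (le_mul_of_one_le_right (by linarith) hQ₁2) h2 (by positivity) (by positivity)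
    have k3 : Q₁ ^ 2 * w ^ (2 * C₂ * c) ≤ (Q * Q₁ ^ 2) * w ^ (2 * C₂ * c) :=
      mul_le_mul_of_nonneg_right (le_mul_of_one_le_left (by positivity) hQ) hW0
    rw [h4]
    have k4 : 3 * (Q * Q₁ ^ 2) * w ^ (2 * C₂ * c) ≤
        3 * (Q * Q₁ ^ 2) * (2 ^ (2 * C₂) * z ^ (2 * C₂ * c)) :=
      mul_le_mul_of_nonneg_left h1 (by positivity)
    linarith
  have h6 := logsq hc hm
  rw [← hz] at h6
  have h7 : C₃ * (1 + Real.log m) ^ 2 ≤ C₃ * ((1 + 2 / c) ^ 2 * z ^ c) :=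
    mul_le_mul_of_nonneg_left h6 (by linarith)
  have h8 : z ^ ((2 * C₂ + 1) * c) = z ^ c * z ^ (2 * C₂ * c) := by
    rw [← Real.rpow_add hz0]
    congr 1
    ring
  have hlog : 0 ≤ Real.log m := Real.log_nonneg hm1
  unfold pg
  rw [← hw, ← hz, h8]
  have h9 := mul_le_mul h7 h5 (by positivity) (by positivity)
  refine h9.trans (le_of_eq ?_)
  ring

end K78

/-- Leaf B4 with a power. -/
theorem pbPK78 {ρ : Measure ℝ} [IsProbabilityMeasure ρ] {β : ℝ} (hB : BeK ρ β) (hN : NuK)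
    (hV : VaW 2 ρ β) (hLoc : LocE 2 ρ β) : PbPK ρ β := by
  intro g hg
  obtain ⟨c₀, hc₀, hLoc'⟩ := hLoc g hg
  obtain ⟨θ, hθdef⟩ : ∃ θ, θ = min (c₀ / 4) (1 / 4000) := ⟨_, rfl⟩
  have hθ : 0 < θ := by
    rw [hθdef]
    exact lt_min (by linarith) (by norm_num)
  have hθ1 : θ ≤ c₀ / 4 := by
    rw [hθdef]
    exact min_le_left _ _
  have hθ2 : θ ≤ 1 / 4000 := by
    rw [hθdef]
    exact min_le_right _ _
  obtain ⟨C₁, hC₁, hB'⟩ := hB c₀ θ hc₀ hθ hθ1 hθ2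
  obtain ⟨C₂, c₂, hC₂, hc₂, hN'⟩ := hN C₁ hC₁
  obtain ⟨C₃, hC₃, hV'⟩ := hV c₀ hc₀
  refine ⟨θ, 2 * C₂ + 1, min c₂ 1, hθ, hθ2, by linarith, lt_min hc₂ one_pos,
    fun h v Q c R hQ hc hc1 hP => ?_⟩
  have hcc₂ : c ≤ c₂ := hc1.trans (min_le_left _ _)
  have hc1' : c ≤ 1 := hc1.trans (min_le_right _ _)
  have hloc : Loc1 ρ β h c₀ := hLoc' h hP.gap
  have hR : 1 ≤ C₁ * (1 + |R|) := by
    have := abs_nonneg R
    nlinarith
  obtain ⟨Q₁, hQ₁, hN''⟩ := hN' c Q (C₁ * (1 + |R|)) hc hcc₂ hQ hR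
  -- the nonrandom fluctuation
  have hE : ∀ n k : ℕ, 1 ≤ n → k ≤ n → En ρ β h k ≤ pg Q₁ (C₂ * c) n := by
    intro n k hn hk
    by_cases h1 : 1 ≤ En ρ β h k
    · obtain ⟨N, e, hN1, he, h2, h3, h4⟩ := hB' h v g R (pg Q c) hloc
        (K78.pg_mono_t (by linarith) hc.le) (K78.one_le_pg hQ hc.le) hP n k hk h1
      exact h2.trans (hN'' n N e hn hN1 he h3 h4)
    · rw [not_le] at h1
      have h2 := K78.one_le_pg hQ₁ (show 0 ≤ C₂ * c by positivity) n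
      linarith
  obtain ⟨Q', hQ'⟩ : ∃ Q' : ℝ, Q' = C₃ * (1 + 2 / c) ^ 2 * (3 * (Q * Q₁ ^ 2)) * 2 ^ (2 * C₂) :=
    ⟨_, rfl⟩
  have hQQ' : Q ≤ Q' := by
    have k1 : (1 : ℝ) ≤ 2 ^ (2 * C₂) := Real.one_le_rpow (by norm_num) (by linarith)
    have k2 : 1 ≤ C₃ * (1 + 2 / c) ^ 2 := by
      refine one_le_mul_of_one_le_of_one_le hC₃ (one_le_pow₀ ?_)
      have : 0 ≤ 2 / c := by positivity
      linarith
    have k3 : Q ≤ 3 * (Q * Q₁ ^ 2) := by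
      have : 1 ≤ Q₁ ^ 2 := one_le_pow₀ hQ₁
      nlinarith
    have k4 : 1 * Q ≤ C₃ * (1 + 2 / c) ^ 2 * (3 * (Q * Q₁ ^ 2)) :=
      mul_le_mul k2 k3 (by linarith) (by linarith)
    have k5 : 1 * Q * 1 ≤ C₃ * (1 + 2 / c) ^ 2 * (3 * (Q * Q₁ ^ 2)) * 2 ^ (2 * C₂) :=
      mul_le_mul k4 k1 zero_le_one (by positivity)
    rw [hQ']
    linarith
  have hcc : c ≤ (2 * C₂ + 1) * c := by nlinarith
  refine ⟨Q', hQ.trans hQQ', hP.gap, fun n t ht => ?_, fun m => ?_, hP.rate⟩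
  · refine (Pool.Agent.W_7d29a1_SW.B78.loc_mono78 β h v ht ?_).trans (hP.loc n t ht)
    exact mul_le_mul_of_nonneg_right (K78.pg_mono (by linarith) hQQ' hcc n) (Real.sqrt_nonneg _)
  · rcases Nat.eq_zero_or_pos m with hm | hm
    · rw [hm, Pool.Agent.W_7d29a1_SW.B78.Va_zero78]
      have := K78.one_le_pg (hQ.trans hQQ') (show 0 ≤ (2 * C₂ + 1) * c by positivity) 0
      linarith
    · have h1 := hV' h hloc θ hθ hθ1 m (pg Q c (2 * m)) (pg Q₁ (C₂ * c) (2 * m)) hm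
        (by
          have := K78.one_le_pg hQ hc.le (2 * m)
          linarith)
        (fun L hL => (hP.bulk L).trans (K78.pg_mono_t (by linarith) hc.le hL))
        (fun i hi => hE (2 * m) i (by omega) hi)
      refine h1.trans ?_
      rw [hQ']
      exact K78.fin hC₂ hC₃ hQ hQ₁ hc hc1' hm

end Pool.Agent.W_7d29a1_WP
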