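import Pool.Agent.W_7d29a1_SW.WDat98
import Pool.Agent.W_7d29a1_WP.DefsPP98

/-!
Theorem W0 with a power, from the point theorem.
-/

namespace Pool.Agent.W_7d29a1_WP

open MeasureTheory ProbabilityTheory Filter Topology Pool.Agent.W_MP_7d29a1_pr
  Pool.Agent.W_7d29a1_h46 Pool.Agent.W_7d29a1_h46u Pool.Agent.W_7d29a1_D2.B35
  Pool.Agent.W_7d29a1_Q29 Pool.Agent.W_7d29a1_R34 Pool.Agent.W_7d29a1_SP Pool.Agent.W_7d29a1_SD
  Pool.Agent.W_7d29a1_V Pool.Agent.W_7d29a1_VT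
  Pool.Agent.W_7d29a1_SW Pool.Agent.W_7d29a1_AM Pool.Agent.W_7d29a1_PL

namespace WZP98

variable {ρ : Measure ℝ} [IsProbabilityMeasure ρ]

/-- The data are monotone in the gauge. -/
lemma pwK_mono {β : ℝ} {h v : Vec 2} {g R : ℝ} {K K' : ℕ → ℝ} (hK : ∀ n, K n ≤ K' n)
    (hP : PwK ρ β h v g K R) : PwK ρ β h v g K' R := by
  classical
  refine ⟨hP.gap, fun n t ht => ?_, fun t => (hP.var t).trans (hK t), hP.rate⟩
  refine le_trans ?_ (hP.loc n t ht)
  have hint : ∀ w : ℝ, Integrable (fun η : Env 2 => 1 - ∑ y ∈ bal v t w, Qt β h n t y η)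
      (law 2 ρ) := by
    intro w
    have h5 : (fun η : Env 2 => 1 - ∑ y ∈ bal v t w, Qt β h n t y η) = fun η =>
        1 - PolT β h η {s : Fin n → Step 2 | pos s t ∈ bal v t w} := by
      funext η
      rw [sum_Qt ht]
    rw [h5]
    exact (integrable_const 1).sub (integrable_PolT72 β h _)
  refine integral_mono (hint _) (hint _) fun η => ?_
  have h1 : bal v t (K n * Real.sqrt n) ⊆ bal v t (K' n * Real.sqrt n) := by
    unfold bal
    refine fun y hy => ?_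
    rw [Finset.mem_filter] at hy ⊢
    exact ⟨hy.1, hy.2.trans (mul_le_mul_of_nonneg_right (hK n) (Real.sqrt_nonneg _))⟩
  have h2 := Finset.sum_le_sum_of_subset_of_nonneg h1 (f := fun y => Qt β h n t y η)
    fun y _ _ => Qt_nonneg39 β h n t y η
  show 1 - ∑ y ∈ bal v t (K' n * Real.sqrt n), Qt β h n t y η ≤
    1 - ∑ y ∈ bal v t (K n * Real.sqrt n), Qt β h n t y η
  linarith

end WZP98

open WZP98 in
/-- **THEOREM W0 with a power**, from the point theorem. -/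
theorem wZeroP98 {ρ : Measure ℝ} [IsProbabilityMeasure ρ] (hρ : EM ρ) {β : ℝ}
    (hP : PointPL ρ β) : MainW0P ρ β := by
  intro h hh
  obtain ⟨g, hg⟩ : ∃ g : ℝ, g = Real.log (Phi h) + Real.log (∫ t, Real.exp (β * t) ∂ρ) -
    lam ρ β h := ⟨_, rfl⟩
  have hg0 : 0 < g := by
    rw [hg]
    have h1 : lam ρ β h < Real.log (Phi h) + Real.log (∫ t, Real.exp (β * t) ∂ρ) := hh
    linarith
  obtain ⟨ε₀, hε0, -, hPt⟩ := hP g hg0
  obtain ⟨c, hc⟩ : ∃ c : ℝ, c = min ε₀ (1 / 10) := ⟨_, rfl⟩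
  have hc0 : 0 < c := by
    rw [hc]
    exact lt_min hε0 (by norm_num)
  have hc1 : c ≤ 1 / 10 := by
    rw [hc]
    exact min_le_right _ _
  have hce : c ≤ ε₀ := by
    rw [hc]
    exact min_le_left _ _
  refine ⟨c, hc0, fun v => ?_⟩
  by_contra hcon
  push Not at hcon
  have hfn : ∀ n : ℕ, 1 ≤ ((n : ℝ) + 1) ^ c := fun n =>
    Real.one_le_rpow (by linarith [Nat.cast_nonneg (α := ℝ) n]) hc0.le
  have hf2 : ∀ᶠ n : ℕ in atTop, Real.sqrt n * ((n : ℝ) + 1) ^ c ≤ (n : ℝ) ^ (9 / 10 : ℝ) := by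
    have h1 : ∀ᶠ n : ℕ in atTop, (2 : ℝ) ≤ (n : ℝ) ^ (1 / 10 : ℝ) := by
      have h2 : Tendsto (fun n : ℕ => (n : ℝ) ^ (1 / 10 : ℝ)) atTop atTop :=
        (tendsto_rpow_atTop (by norm_num)).comp tendsto_natCast_atTop_atTop
      exact h2.eventually_ge_atTop 2
    filter_upwards [h1, eventually_ge_atTop 1] with n hn hn1
    have hn0 : (1 : ℝ) ≤ n := by exact_mod_cast hn1
    have hn0' : (0 : ℝ) < n := by linarith
    have e1 : ((n : ℝ) + 1) ^ c ≤ (n : ℝ) ^ (2 / 10 : ℝ) := by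
      calc ((n : ℝ) + 1) ^ c ≤ (2 * n : ℝ) ^ c :=
            Real.rpow_le_rpow (by linarith) (by linarith) hc0.le
        _ = 2 ^ c * (n : ℝ) ^ c := Real.mul_rpow (by norm_num) hn0'.le
        _ ≤ 2 ^ (1 : ℝ) * (n : ℝ) ^ (1 / 10 : ℝ) := by
            refine mul_le_mul (Real.rpow_le_rpow_of_exponent_le (by norm_num) (by linarith))
              (Real.rpow_le_rpow_of_exponent_le hn0 hc1) (by positivity) (by positivity)
        _ ≤ (n : ℝ) ^ (1 / 10 : ℝ) * (n : ℝ) ^ (1 / 10 : ℝ) := by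
            refine mul_le_mul_of_nonneg_right ?_ (by positivity)
            rw [Real.rpow_one]
            exact hn
        _ = (n : ℝ) ^ (2 / 10 : ℝ) := by
            rw [← Real.rpow_add hn0']
            norm_num
    calc Real.sqrt n * ((n : ℝ) + 1) ^ c ≤ (n : ℝ) ^ (1 / 2 : ℝ) * (n : ℝ) ^ (2 / 10 : ℝ) := by
          rw [Real.sqrt_eq_rpow]
          exact mul_le_mul_of_nonneg_left e1 (by positivity)
      _ = (n : ℝ) ^ (7 / 10 : ℝ) := by
          rw [← Real.rpow_add hn0']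
          norm_num
      _ ≤ (n : ℝ) ^ (9 / 10 : ℝ) := Real.rpow_le_rpow_of_exponent_le hn0 (by norm_num)
  obtain ⟨Q, R, hQ, hD⟩ := dat98 (by norm_num) hρ h v (fun n : ℕ => ((n : ℝ) + 1) ^ c) hfn hf2
    (fun ε hε => by
      filter_upwards [hcon ε hε, eventually_ge_atTop 1] with n hn hn1
      have hn0 : (0 : ℝ) < n := by exact_mod_cast hn1
      have e1 : (n : ℝ) ^ c ≤ ((n : ℝ) + 1) ^ c :=
        Real.rpow_le_rpow hn0.le (by linarith) hc0.le
      refine ⟨hn.1.le.trans e1, lt_of_le_of_lt ?_ hn.2⟩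
      refine integral_mono ((integrable_const 1).sub (integrable_PolT72 β h _))
        ((integrable_const 1).sub (integrable_PolT72 β h _)) fun η => ?_
      have e2 : (n : ℝ) ^ (1 / 2 + c) ≤ Real.sqrt n * ((n : ℝ) + 1) ^ c := by
        rw [Real.rpow_add hn0, ← Real.sqrt_eq_rpow]
        exact mul_le_mul_of_nonneg_left e1 (Real.sqrt_nonneg _)
      have e3 := PolT_mono β h η (show tube 2 n v ((n : ℝ) ^ (1 / 2 + c)) ⊆
        tube 2 n v (Real.sqrt n * ((n : ℝ) + 1) ^ c) from fun s hs i hi => (hs i hi).trans e2)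
      show 1 - PolT β h η (tube 2 n v (Real.sqrt n * ((n : ℝ) + 1) ^ c)) ≤
        1 - PolT β h η (tube 2 n v ((n : ℝ) ^ (1 / 2 + c)))
      linarith)
  have hD' : PwK ρ β h v g (pg Q c) R := ⟨by rw [hg]; linarith, hD.loc, hD.var, hD.rate⟩
  refine hPt h v Q R hQ (pwK_mono (fun n => ?_) hD')
  unfold pg
  exact mul_le_mul_of_nonneg_left (Real.rpow_le_rpow_of_exponent_le
    (by linarith [Nat.cast_nonneg (α := ℝ) n]) hce) (by linarith)

end Pool.Agent.W_7d29a1_WP
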