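import Pool.Agent.W_7d29a1_WP.PointPL98
import Pool.Agent.W_7d29a1_WP.BudW98
import Pool.Agent.W_7d29a1_WP.LowW15
import Pool.Agent.W_7d29a1_WP.BetW26
import Pool.Agent.W_7d29a1_WP.WZeroP98
import Pool.Agent.W_7d29a1_SW.LkB96
import Pool.Agent.W_7d29a1_SW.LuD93
import Pool.Agent.W_7d29a1_SW.Vb83
import Pool.Agent.W_7d29a1_AM.FinU73

/-!
The point theorem of the power law and Theorem W0 with a power, from the core `CorP` alone.
-/

namespace Pool.Agent.W_7d29a1_WP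

open MeasureTheory ProbabilityTheory Filter Topology Pool.Agent.W_MP_7d29a1_pr
  Pool.Agent.W_7d29a1_h46 Pool.Agent.W_7d29a1_h46u Pool.Agent.W_7d29a1_D2.B35
  Pool.Agent.W_7d29a1_Q29 Pool.Agent.W_7d29a1_R34 Pool.Agent.W_7d29a1_SP Pool.Agent.W_7d29a1_SD
  Pool.Agent.W_7d29a1_SW Pool.Agent.W_7d29a1_AM Pool.Agent.W_7d29a1_PL

variable {ρ : Measure ℝ} [IsProbabilityMeasure ρ]

/-- There is no good point with a power bound, from the core. -/
theorem pointC98 (hρ : EM ρ) (hnc : ∀ c : ℝ, ρ {c} ≠ 1) {β : ℝ} (hβ : 0 < β)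
    (hCor : CorP 2 ρ β) : PointPL ρ β := by
  have hLoc : LocE 2 ρ β := Csy42.loc42 (by norm_num) hρ β
  have hB : LkB ρ β := lkB96 (luD93 (by norm_num) hρ β) (npW83 (by norm_num) hρ hnc hβ)
  have hV : VbV 2 ρ β := vbV83 (by norm_num) hρ β
  have hGrow : GrowU 2 ρ β :=
    growU78 (cnt79 (by norm_num) hρ β) (ampU73 (by norm_num) hρ hnc hβ)
  have hGap : GapQ 2 ρ β :=
    gapQ72 (npf98 (by norm_num) hρ hnc hβ) hLoc (lowP85 (by norm_num) hρ β)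
  exact pointPL98 hCor (budW98 (npb98 (by norm_num) hρ hnc hβ))
    (lowW15 hρ seqP69 hGrow hB hV hLoc hGap) (betW26 hρ seqP69 hB hV)

/-- **THEOREM W0 with a power**, from the core. -/
theorem mainC98 (hρ : EM ρ) (hnc : ∀ c : ℝ, ρ {c} ≠ 1) {β : ℝ} (hβ : 0 < β)
    (hCor : CorP 2 ρ β) : MainW0P ρ β :=
  wZeroP98 hρ (pointC98 hρ hnc hβ hCor)

end Pool.Agent.W_7d29a1_WP
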