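import Pool.Agent.W_7d29a1_WP.DefsPP98

/-!
The point theorem of the power law in the window form, from the core.
-/

namespace Pool.Agent.W_7d29a1_WP

open MeasureTheory ProbabilityTheory Filter Topology Pool.Agent.W_MP_7d29a1_pr
  Pool.Agent.W_7d29a1_h46 Pool.Agent.W_7d29a1_h46u Pool.Agent.W_7d29a1_D2.B35
  Pool.Agent.W_7d29a1_Q29 Pool.Agent.W_7d29a1_R34 Pool.Agent.W_7d29a1_SP Pool.Agent.W_7d29a1_SD
  Pool.Agent.W_7d29a1_SW Pool.Agent.W_7d29a1_AM Pool.Agent.W_7d29a1_PL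

namespace PP98

/-- `B ≤ n ^ a` for all large `n`. -/
lemma ev_rpow (B : ℝ) {a : ℝ} (ha : 0 < a) : ∀ᶠ n : ℕ in atTop, B ≤ (n : ℝ) ^ a := by
  have h2 : Tendsto (fun n : ℕ => (n : ℝ) ^ a) atTop atTop :=
    (tendsto_rpow_atTop ha).comp tendsto_natCast_atTop_atTop
  exact h2.eventually_ge_atTop B

/-- The eighth root. -/
lemma root8 : ∀ᶠ n : ℕ in atTop, ∃ m : ℕ, m ^ 8 ≤ n ∧ Real.log n ≤ 9 * Real.log m := by
  have h1 := tendsto_natCast_atTop_atTop (R := ℝ)
  filter_upwards [ev_rpow 2 (show (0 : ℝ) < 1 / 8 - 1 / 9 by norm_num), eventually_ge_atTop 1]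
    with n hn hn1
  have hn0 : (1 : ℝ) ≤ n := by exact_mod_cast hn1
  have hn0' : (0 : ℝ) < n := by linarith
  obtain ⟨x, hx⟩ : ∃ x : ℝ, x = (n : ℝ) ^ (1 / 8 : ℝ) := ⟨_, rfl⟩
  have hx1 : 1 ≤ x := by
    rw [hx]
    exact Real.one_le_rpow hn0 (by norm_num)
  have hx8 : x ^ 8 = n := by
    rw [hx, ← Real.rpow_natCast, ← Real.rpow_mul hn0'.le]
    norm_num
  refine ⟨⌊x⌋₊, ?_, ?_⟩
  · have h2 : (⌊x⌋₊ : ℝ) ≤ x := Nat.floor_le (by linarith)
    have h3 : ((⌊x⌋₊ ^ 8 : ℕ) : ℝ) ≤ n := by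
      push_cast
      rw [← hx8]
      exact pow_le_pow_left₀ (Nat.cast_nonneg _) h2 8
    exact_mod_cast h3
  · have h2 : x / 2 ≤ ⌊x⌋₊ := by
      have h3 := Nat.lt_floor_add_one x
      have h4 : (1 : ℝ) ≤ ⌊x⌋₊ := by
        exact_mod_cast (Nat.one_le_floor_iff x).2 hx1
      linarith
    have h5 : (n : ℝ) ^ (1 / 9 : ℝ) ≤ ⌊x⌋₊ := by
      refine le_trans ?_ h2
      rw [le_div_iff₀ (by norm_num), mul_comm, hx]
      calc 2 * (n : ℝ) ^ (1 / 9 : ℝ) ≤ (n : ℝ) ^ (1 / 8 - 1 / 9 : ℝ) * (n : ℝ) ^ (1 / 9 : ℝ) :=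
            mul_le_mul_of_nonneg_right hn (by positivity)
        _ = (n : ℝ) ^ (1 / 8 : ℝ) := by
            rw [← Real.rpow_add hn0']
            norm_num
    have h6 := Real.log_le_log (by positivity) h5
    rw [Real.log_rpow hn0'] at h6
    linarith

/-- The budget is monotone. -/
lemma Bd_mono {d : ℕ} {ρ : Measure ℝ} {β : ℝ} {h : Vec d} {n : ℕ} {V V' C : ℝ} (hV : V ≤ V')
    (hB : Bd ρ β h n V C) : Bd ρ β h n V' C := by
  intro I B θ D h1 h2 h3
  exact (hB I B θ D h1 h2 h3).trans (by linarith)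

end PP98

open PP98 in
/-- **The point theorem of the power law**, window form, from the core. -/
theorem pointPL98 {ρ : Measure ℝ} {β : ℝ} (hCor : CorP 2 ρ β) (hBud : BudW ρ β)
    (hLow : LowW ρ β) (hBet : BetW ρ β) : PointPL ρ β := by
  intro g hg
  obtain ⟨c₁, C, hc₁, hC, hbud⟩ := hBud g hg
  obtain ⟨c, A, hc, hcor⟩ := hCor g C hg hC
  obtain ⟨c₂, hc₂, hlow⟩ := hLow g (9 * |A|) hg
  obtain ⟨c₃, hc₃, hbet⟩ := hBet g hg
  obtain ⟨ε, hε⟩ : ∃ ε : ℝ, ε = min (min (min c₁ c₂) (min c₃ 1)) (min (c / 16) (c / (C + 1))) :=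
    ⟨_, rfl⟩
  have hε0 : 0 < ε := by
    rw [hε]
    exact lt_min (lt_min (lt_min hc₁ hc₂) (lt_min hc₃ one_pos))
      (lt_min (by positivity) (by positivity))
  have e1 : ε ≤ c₁ := by
    rw [hε]
    exact (min_le_left _ _).trans ((min_le_left _ _).trans (min_le_left _ _))
  have e2 : ε ≤ c₂ := by
    rw [hε]
    exact (min_le_left _ _).trans ((min_le_left _ _).trans (min_le_right _ _))
  have e3 : ε ≤ c₃ := by
    rw [hε]
    exact (min_le_left _ _).trans ((min_le_right _ _).trans (min_le_left _ _))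
  have e4 : ε ≤ 1 := by
    rw [hε]
    exact (min_le_left _ _).trans ((min_le_right _ _).trans (min_le_right _ _))
  have e5 : ε ≤ c / 16 := by
    rw [hε]
    exact (min_le_right _ _).trans (min_le_left _ _)
  have e6 : ε ≤ c / (C + 1) := by
    rw [hε]
    exact (min_le_right _ _).trans (min_le_right _ _)
  refine ⟨ε, hε0, e4, fun h v Q R hQ hP => ?_⟩
  obtain ⟨n₁, h1⟩ := hbud h v Q ε R hQ hε0 e1 hP
  obtain ⟨n₂, h2⟩ := hlow h v Q ε R hQ hε0 e2 hP
  obtain ⟨n₃, h3⟩ := hbet h v Q ε R hQ hε0 e3 hP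
  obtain ⟨n₀, h0⟩ := hcor h hP.gap
  have hr := root8
  obtain ⟨n, hn⟩ := (hr.and ((eventually_ge_atTop (n₀ + n₁ + n₃ + n₂ ^ 9 + 4)).and
    ((ev_rpow (5 * Q) (show 0 < c / 2 by linarith)).and
      (ev_rpow (4 : ℝ) (show 0 < c / 2 by linarith))))).exists
  obtain ⟨⟨m, hm8, hm⟩, hn0, hn4, hn5⟩ := hn
  have hn1 : (1 : ℝ) ≤ n := by exact_mod_cast (by omega : 1 ≤ n)
  have hn0' : (0 : ℝ) < n := by linarith
  have hln : 0 ≤ Real.log (n : ℝ) := Real.log_nonneg hn1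
  -- `m` is large
  have hmn : n₂ ≤ m := by
    by_contra hcon
    rw [not_le] at hcon
    have hm0 : (0 : ℝ) < m := by
      rcases Nat.eq_zero_or_pos m with hz | hz
      · rw [hz] at hm
        have h4 : Real.log (n : ℝ) ≤ 0 := by simpa using hm
        have h5 : 0 < Real.log (n : ℝ) :=
          Real.log_pos (by exact_mod_cast (by omega : 1 < n))
        linarith
      · exact_mod_cast hz
    have h4 : Real.log (n : ℝ) ≤ Real.log ((n₂ : ℝ) ^ 9) := by
      rw [Real.log_pow]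
      push_cast
      have h5 : Real.log (m : ℝ) ≤ Real.log n₂ :=
        Real.log_le_log hm0 (by exact_mod_cast hcon.le)
      linarith
    have hn2 : (0 : ℝ) < (n₂ : ℝ) ^ 9 := by
      have : (0 : ℝ) < n₂ := by exact_mod_cast (by omega : 0 < n₂)
      positivity
    have h5 := (Real.log_le_log_iff hn0' hn2).1 h4
    have h6 : n ≤ n₂ ^ 9 := by exact_mod_cast h5
    omega
  refine h0 n (by omega) (fun k hk => ?_) ?_ ?_
  · have hk' : (k : ℝ) ≤ 4 * n := by exact_mod_cast hk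
    have hcc : (n : ℝ) ^ (c / 2) * (n : ℝ) ^ (c / 2) = (n : ℝ) ^ c := by
      rw [← Real.rpow_add hn0']
      congr 1
      ring
    constructor
    · refine (hP.var k).trans ?_
      have f1 : ((k : ℝ) + 1) ^ ε ≤ (5 * n : ℝ) ^ ε :=
        Real.rpow_le_rpow (by positivity) (by linarith) hε0.le
      have f2 : (5 * n : ℝ) ^ ε ≤ 5 * (n : ℝ) ^ (c / 2) := by
        rw [Real.mul_rpow (by norm_num) hn0'.le]
        refine mul_le_mul ?_ (Real.rpow_le_rpow_of_exponent_le hn1 (by linarith)) (by positivity)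
          (by norm_num)
        calc (5 : ℝ) ^ ε ≤ 5 ^ (1 : ℝ) := Real.rpow_le_rpow_of_exponent_le (by norm_num) e4
          _ = 5 := Real.rpow_one 5
      calc pg Q ε k = Q * ((k : ℝ) + 1) ^ ε := rfl
        _ ≤ Q * (5 * (n : ℝ) ^ (c / 2)) :=
            mul_le_mul_of_nonneg_left (f1.trans f2) (by linarith)
        _ = (5 * Q) * (n : ℝ) ^ (c / 2) := by ring
        _ ≤ (n : ℝ) ^ (c / 2) * (n : ℝ) ^ (c / 2) :=
            mul_le_mul_of_nonneg_right hn4 (by positivity)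
        _ = (n : ℝ) ^ c := hcc
    · refine (h3 (4 * n) k (by omega) hk).trans ?_
      push_cast
      rw [Real.mul_rpow (by norm_num) hn0'.le, ← hcc]
      refine mul_le_mul ?_ (Real.rpow_le_rpow_of_exponent_le hn1 (by linarith)) (by positivity)
        (by positivity)
      have f3 : (4 : ℝ) ^ (8 * ε) ≤ (n : ℝ) ^ (c / 2) := by
        have f4 : (4 : ℝ) ≤ n := by exact_mod_cast (by omega : 4 ≤ n)
        calc (4 : ℝ) ^ (8 * ε) ≤ (n : ℝ) ^ (8 * ε) :=
              Real.rpow_le_rpow (by norm_num) f4 (by linarith)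
          _ ≤ (n : ℝ) ^ (c / 2) := Real.rpow_le_rpow_of_exponent_le hn1 (by linarith)
      exact f3
  · obtain ⟨k, hk, hk2⟩ := h2 m hmn
    refine ⟨k, (Nat.pow_le_pow_left hk 8).trans hm8, le_trans ?_ hk2⟩
    have f1 : A * Real.log n ≤ |A| * Real.log n :=
      mul_le_mul_of_nonneg_right (le_abs_self A) hln
    have f2 := mul_le_mul_of_nonneg_left hm (abs_nonneg A)
    linarith
  · refine Bd_mono ?_ (h1 n (by omega))
    refine mul_le_mul_of_nonneg_right ?_ hln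
    rw [le_div_iff₀ (by linarith)] at e6
    nlinarith

end Pool.Agent.W_7d29a1_WP
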